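import Pool.Agent.Lib.MP_33b3f9_ag.M8.W.CDefs
import Pool.Agent.Lib.MP_33b3f9_ag.M5.Res

/-!
Extension of the base field; consequences of the integral theorem of Faltings.
-/

set_option autoImplicit false

noncomputable section

namespace M8

open Matrix Polynomial NumberField M4 M4.CM M5 Pool.Agent.M4.Mx

variable {a b : MZ} {τ : Mat} {K : IntermediateField ℚ ℂ} {r : Rep K}

/-- The restricted representations. -/
def rres (r : Rep K) {K' : IntermediateField ℚ ℂ} (h : K ≤ K') : Rep K' :=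
  fun l _ => (r l).comp (res h)

theorem AV_res (H : AV τ K r) {K' : IntermediateField ℚ ℂ} [FiniteDimensional ℚ K'] (h : K ≤ K') :
    AV τ K' (rres r h) :=
  ⟨H.inH, inferInstance, ⟨h H.defX.1, fun ε ε' => h (H.defX.2 ε ε')⟩,
    fun σ x y hx => H.tate (res h σ) x y hx⟩

theorem comm_res (H : COMM a b r) {K' : IntermediateField ℚ ℂ} (h : K ≤ K') :
    COMM a b (rres r h) := fun l _ σ => H l (res h σ)

theorem fal_res (H : FAL a b r) {K' : IntermediateField ℚ ℂ} [FiniteDimensional ℚ K']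
    (h : K ≤ K') : FAL a b (rres r h) := by
  obtain ⟨C, hC⟩ := H
  have hd := (res_fin h).index_ne_zero
  have hi : Function.Injective (res h) := fun σ σ' e => AlgEquiv.ext fun x => AlgEquiv.congr_fun e x
  refine ⟨(1 + (res h).range.index) * C, fun N hN U hU => ?_⟩
  have h1 := Subgroup.index_map_of_injective U hi
  have h2 := hC N hN (U.map (res h)) ⟨by rw [h1]; exact mul_ne_zero hU.index_ne_zero hd⟩
  have e : {R : MZ | ∃ σ ∈ U, Cong (rres r h) σ N R} =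
      {R : MZ | ∃ σ ∈ U.map (res h), Cong r σ N R} := by
    ext R
    constructor
    · rintro ⟨σ, hσ, hc⟩
      exact ⟨res h σ, ⟨σ, hσ, rfl⟩, hc⟩
    · rintro ⟨_, ⟨σ, hσ, rfl⟩, hc⟩
      exact ⟨σ, hσ, hc⟩
  rw [e, pow_mul]
  refine h2.trans (Nat.pow_le_pow_left ?_ C)
  have h3 : 2 ≤ U.index * (2 + Nat.log 2 N) :=
    le_trans (by omega) (Nat.le_mul_of_pos_left _ (Nat.pos_of_ne_zero hU.index_ne_zero))
  rw [h1, mul_right_comm, pow_add, pow_one]
  exact Nat.mul_le_mul_left _ (Nat.lt_two_pow_self.le.trans (Nat.pow_le_pow_left h3 _))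

theorem res_low (U : Subgroup (ℂ ≃ₐ[K] ℂ)) {N l : ℕ} [Fact l.Prime] (hN : N ≠ 0)
    (π : ℤ_[l] →+* ZMod N) (ψ : Matrix ν ν (ZMod N) →+ ZMod N)
    (hc : ∀ σ ∈ U, ψ ((r l σ : Matrix ν ν ℤ_[l]).map π) = 0) {R₀ : MZ} (h0 : R₀ ∈ CmN a b N) :
    addOrderOf (ψ (zM (ZMod N) R₀)) ≤
      (AddSubgroup.closure {R : MZ | ∃ σ ∈ U, Cong r σ N R}).relIndex (CmN a b N) := by
  have : NeZero N := ⟨hN⟩
  let φ : MZ →+ ZMod N := ψ.comp (Int.castRingHom (ZMod N)).mapMatrix.toAddMonoidHom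
  have h1 : AddSubgroup.closure {R : MZ | ∃ σ ∈ U, Cong r σ N R} ≤ φ.ker := by
    rw [AddSubgroup.closure_le]
    rintro R ⟨σ, hσ, hR⟩
    refine Eq.trans (congrArg ψ (Matrix.ext fun i j => ?_)) (hc σ hσ)
    obtain ⟨y, hy⟩ := hR l i j
    rw [map_apply, eq_add_of_sub_eq hy, map_add, map_mul, map_natCast, map_intCast,
      ZMod.natCast_self, zero_mul, zero_add]
    rfl
  have h2 : (Int.castRingHom (ZMod N)).mapMatrix.toAddMonoidHom.ker ≤
      AddSubgroup.closure {R : MZ | ∃ σ ∈ U, Cong r σ N R} := by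
    intro R hR
    have h3 : ∀ i j, (N : ℤ) ∣ R i j := fun i j =>
      (ZMod.intCast_zmod_eq_zero_iff_dvd _ _).1 (congrFun (congrFun hR i) j)
    have h4 : ∀ S : MZ, (∀ i j, (N : ℤ) ∣ S i j) →
        1 - S ∈ AddSubgroup.closure {R : MZ | ∃ σ ∈ U, Cong r σ N R} := by
      intro S hS
      refine AddSubgroup.subset_closure ⟨1, U.one_mem, fun p _ i j => ?_⟩
      obtain ⟨y, hy⟩ := hS i j
      refine ⟨y, ?_⟩
      rw [map_one, Units.val_one, Matrix.sub_apply, hy, one_apply, one_apply]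
      push_cast
      ring
    have h5 := AddSubgroup.sub_mem _ (h4 0 fun _ _ => dvd_zero _) (h4 R h3)
    rwa [sub_zero, sub_sub_cancel] at h5
  have h6 := AddSubgroup.finiteIndex_of_le h2
  have h7 := AddSubgroup.relIndex_dvd_of_le_left (CmN a b N) h1
  rw [AddSubgroup.relIndex_ker] at h7
  exact Nat.le_of_dvd (Nat.pos_of_ne_zero AddSubgroup.FiniteIndex.index_ne_zero)
    ((AddSubgroup.addOrderOf_dvd_natCard _ (AddSubgroup.mem_map_of_mem φ h0)).trans h7)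

theorem mem_CmN {N : ℕ} {R : MZ} (ha : Commute (zM (ZMod N) a) (zM (ZMod N) R))
    (hb : Commute (zM (ZMod N) b) (zM (ZMod N) R)) : R ∈ CmN a b N := by
  have h : ∀ d : MZ, Commute (zM (ZMod N) d) (zM (ZMod N) R) → ∀ i j,
      (N : ℤ) ∣ (R * d - d * R) i j := fun d hd i j => by
    have h1 := hd.eq
    rw [← zM_mul, ← zM_mul] at h1
    rw [← ZMod.intCast_zmod_eq_zero_iff_dvd, Matrix.sub_apply, Int.cast_sub, sub_eq_zero]
    exact (congrFun (congrFun h1 i) j).symm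
  exact fun i j => ⟨h a ha i j, h b hb i j⟩

theorem avg_comm {R : Type} [CommRing R] {A B Y : Matrix ν ν R} {m n : R} (aa : A * A = -(m • 1))
    (bb : B * B = n • 1) (ab : A * B = -(B * A)) :
    Commute A ((m * n) • Y - n • (A * Y * A) + m • (B * Y * B) + A * B * Y * (A * B)) ∧
    Commute B ((m * n) • Y - n • (A * Y * A) + m • (B * Y * B) + A * B * Y * (A * B)) := by
  have ba : B * A = -(A * B) := by rw [ab, neg_neg]
  have h1 : ∀ Z, A * (A * Z) = -(m • Z) := fun Z => by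
    rw [← mul_assoc, aa, neg_mul, smul_mul_assoc, one_mul]
  have h2 : ∀ Z, B * (B * Z) = n • Z := fun Z => by rw [← mul_assoc, bb, smul_mul_assoc, one_mul]
  have h3 : ∀ Z, B * (A * Z) = -(A * (B * Z)) := fun Z => by
    rw [← mul_assoc, ba, neg_mul, mul_assoc]
  constructor <;>
    simp only [Commute, SemiconjBy, mul_add, add_mul, mul_sub, sub_mul, mul_smul_comm,
      smul_mul_assoc, mul_assoc, h1, h2, h3, aa, bb, ba, mul_neg, mul_one] <;>
    module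

theorem exists_R {m n : ℕ} (hP : PEL a b m n) {Ω : Type} [Field Ω] [CharZero Ω] (s : Mor a b Ω)
    {f : Matrix ω ω Ω →ₗ[Ω] Ω} (hf : f ≠ 0) :
    ∃ R : MZ, Commute a R ∧ Commute b R ∧ f (s.pr (zM Ω R)) ≠ 0 := by
  by_contra! hc
  obtain ⟨aa, bb, ab, -⟩ := hP.rel Ω
  let P : Matrix ν ν Ω →ₗ[Ω] Matrix ν ν Ω := ((m : Ω) * n) • LinearMap.id -
    (n : Ω) • LinearMap.mulLeftRight Ω (zM Ω a, zM Ω a) +
    (m : Ω) • LinearMap.mulLeftRight Ω (zM Ω b, zM Ω b) +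
    LinearMap.mulLeftRight Ω (zM Ω a * zM Ω b, zM Ω a * zM Ω b)
  have hP' : ∀ Y, P Y = ((m : Ω) * n) • Y - (n : Ω) • (zM Ω a * Y * zM Ω a) +
      (m : Ω) • (zM Ω b * Y * zM Ω b) + zM Ω a * zM Ω b * Y * (zM Ω a * zM Ω b) := fun Y => rfl
  have h1 : f ∘ₗ s.pr ∘ₗ P = 0 := by
    refine Matrix.ext_linearMap Ω fun i j => LinearMap.ext_ring ?_
    have h2 := avg_comm (Y := single i j (1 : ℤ)) hP.aa hP.bb hP.ab
    have h3 := hc _ h2.1 h2.2
    have h4 : zM Ω (single i j 1) = single i j 1 := by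
      ext p q
      simp [single_apply]
    rw [zM_add, zM_add, sub_eq_add_neg, zM_add, zM_neg, zM_smul, zM_smul, zM_smul] at h3
    simp only [zM_mul, h4, Int.cast_mul, Int.cast_natCast] at h3
    rw [← sub_eq_add_neg, ← hP'] at h3
    exact h3
  refine hf (LinearMap.ext fun x => ?_)
  have h2 : f (s.pr (P (s.em x))) = 0 := LinearMap.congr_fun h1 (s.em x)
  have h3 : P (s.em x) = (4 * m * n : Ω) • s.em x := by
    have e : zM Ω a * zM Ω b * (zM Ω a * zM Ω b) = ((m : Ω) * n) • 1 := by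
      have ba : zM Ω b * zM Ω a = -(zM Ω a * zM Ω b) := by rw [ab, neg_neg]
      rw [mul_assoc, ← mul_assoc (zM Ω b), ba, neg_mul, mul_assoc, bb, mul_neg, ← mul_assoc, aa]
      simp [smul_smul, mul_comm]
    rw [hP', ((s.comm_a x).mul_left (s.comm_b x)).eq, (s.comm_a x).eq, (s.comm_b x).eq, mul_assoc,
      mul_assoc, mul_assoc, aa, bb, e]
    simp only [mul_neg, mul_smul_comm, mul_one]
    module
  rw [h3, map_smul, map_smul, s.pr_em, smul_eq_mul, mul_eq_zero] at h2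
  exact h2.resolve_left (mul_ne_zero (mul_ne_zero (by norm_num) (Nat.cast_ne_zero.2 hP.m0.ne'))
    (Nat.cast_ne_zero.2 hP.n0.ne'))

theorem fal_sq {m n : ℕ} (hP : PEL a b m n) (h : FAL a b r) (l : ℕ) [Fact l.Prime]
    (W : Lw a b (r l)) : W.Sq := by
  obtain ⟨C, hC⟩ := h
  intro U hU
  by_contra hne
  obtain ⟨f, hf, hW⟩ := Submodule.exists_le_ker_of_lt_top _ (lt_top_iff_ne_top.2 hne)
  obtain ⟨R, ha, hb, hR⟩ := exists_R hP W.s hf
  obtain ⟨lam, hl⟩ := not_forall.1 (mt (Module.forall_dual_apply_eq_zero_iff ℚ_[l] _).1 hR)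
  let c : ν × ν → ℚ_[l] := fun x => lam (f (W.s.pr (single x.1 x.2 1)))
  have h0 : ∀ Y : Matrix ν ν ℤ_[l], lam (f (W.s.pr (Y.map (CM.toOm l)))) =
      ∑ x : ν × ν, c x * Y x.1 x.2 := fun Y => by
    conv_lhs => rw [matrix_eq_sum_single (Y.map (CM.toOm l)), ← Fintype.sum_prod_type', map_sum,
      map_sum, map_sum]
    refine Finset.sum_congr rfl fun x _ => ?_
    rw [mul_comm, ← smul_eq_mul, ← map_smul, Algebra.smul_def, ← smul_eq_mul, ← map_smul,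
      ← map_smul, smul_single, smul_eq_mul, mul_one]
    rfl
  obtain ⟨q, -, hq⟩ := Finset.exists_max_image Finset.univ (fun q : ν × ν => ‖c q‖)
    ⟨(.inl 0, .inl 0), Finset.mem_univ _⟩
  rw [← zM_map (CM.toOm l), h0] at hl
  have hq0 : c q ≠ 0 := fun h0 => hl (Finset.sum_eq_zero fun p _ => by
    rw [norm_le_zero_iff.1 ((hq p (Finset.mem_univ _)).trans_eq (by rw [h0, norm_zero])), zero_mul])
  let c' : ν × ν → ℤ_[l] := fun x => ⟨c x / c q, by
    rw [norm_div]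
    exact div_le_one_of_le₀ (hq x (Finset.mem_univ _)) (norm_nonneg _)⟩
  have h1 : ∀ Y : Matrix ν ν ℤ_[l], PadicInt.Coe.ringHom (∑ x : ν × ν, c' x * Y x.1 x.2) =
      (∑ x : ν × ν, c x * Y x.1 x.2) / c q := fun Y => by
    rw [map_sum, Finset.sum_div]
    refine Finset.sum_congr rfl fun x _ => ?_
    rw [map_mul, mul_div_right_comm]
    rfl
  have h2 : ∀ σ ∈ U, ∑ x : ν × ν, c' x * (r l σ : Matrix ν ν ℤ_[l]) x.1 x.2 = 0 := by
    intro σ hσ
    refine Subtype.ext ((h1 _).trans ?_)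
    rw [← h0, ← W.w_eq, LinearMap.mem_ker.1 (hW (Submodule.subset_span ⟨σ, hσ, rfl⟩)), map_zero,
      zero_div]
    rfl
  have hy : ∑ x : ν × ν, c' x * zM ℤ_[l] R x.1 x.2 ≠ 0 := fun e => by
    have h3 := h1 (zM ℤ_[l] R)
    rw [e, map_zero] at h3
    exact div_ne_zero hl hq0 h3.symm
  have hp : l.Prime := Fact.out
  obtain ⟨k, u, hu⟩ : ∃ (k : ℕ) (u : ℤ_[l]ˣ),
      ∑ x : ν × ν, c' x * zM ℤ_[l] R x.1 x.2 = u * (l : ℤ_[l]) ^ k :=
    ⟨_, _, PadicInt.unitCoeff_spec hy⟩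
  obtain ⟨N₀, hN₀⟩ := res_grow (l ^ k * U.index) (C + 1)
  have h4 : l ^ N₀ ≠ 0 := pow_ne_zero _ hp.ne_zero
  have : NeZero (l ^ N₀) := ⟨h4⟩
  let ψ : Matrix ν ν (ZMod (l ^ N₀)) →+ ZMod (l ^ N₀) :=
    { toFun := fun Y => ∑ x : ν × ν, PadicInt.toZModPow N₀ (c' x) * Y x.1 x.2
      map_zero' := by simp
      map_add' := fun Y Y' => by simp only [Matrix.add_apply, mul_add, Finset.sum_add_distrib] }
  have hψ : ∀ Y : Matrix ν ν ℤ_[l], ψ (Y.map (PadicInt.toZModPow N₀)) =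
      PadicInt.toZModPow N₀ (∑ x : ν × ν, c' x * Y x.1 x.2) := fun Y => by
    simp only [map_sum, map_mul]
    rfl
  have h5 := (res_low (r := r) U h4 (PadicInt.toZModPow (p := l) N₀) ψ
    (fun σ hσ => by rw [hψ, h2 σ hσ, map_zero]) (R₀ := R) (mem_CmN
      (by rw [Commute, SemiconjBy, ← zM_mul, ← zM_mul, ha.eq])
      (by rw [Commute, SemiconjBy, ← zM_mul, ← zM_mul, hb.eq]))).trans (hC _ h4 U hU)
  rw [← zM_map (PadicInt.toZModPow (p := l) N₀), hψ, hu] at h5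
  have h6 := addOrderOf_nsmul_eq_zero (PadicInt.toZModPow N₀ ((u : ℤ_[l]) * (l : ℤ_[l]) ^ k))
  have h7 := addOrderOf_pos (PadicInt.toZModPow N₀ ((u : ℤ_[l]) * (l : ℤ_[l]) ^ k))
  generalize addOrderOf (PadicInt.toZModPow N₀ ((u : ℤ_[l]) * (l : ℤ_[l]) ^ k)) = o at h5 h6 h7
  rw [← map_nsmul, ← RingHom.mem_ker, PadicInt.ker_toZModPow, Ideal.mem_span_singleton,
    nsmul_eq_mul, mul_left_comm, Units.dvd_mul_left] at h6
  have h8 : l ^ N₀ ∣ o * l ^ k := by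
    rw [← Int.natCast_dvd_natCast, Nat.cast_pow, ← PadicInt.pow_p_dvd_int_iff]
    exact_mod_cast h6
  have h9 := Nat.le_of_dvd (mul_pos h7 (pow_pos hp.pos k)) h8
  refine absurd (h9.trans ?_) (hN₀ _ (Nat.lt_pow_self hp.one_lt).le).not_ge
  have h10 : 0 < U.index * (2 + Nat.log 2 (l ^ N₀)) :=
    mul_pos (Nat.pos_of_ne_zero hU.index_ne_zero) (by omega)
  rw [mul_assoc, pow_succ]
  exact Nat.mul_le_mul (h5.trans (Nat.pow_le_pow_left
    (Nat.le_mul_of_pos_left _ (pow_pos hp.pos k)) C)) (Nat.le_mul_of_pos_right _ h10)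

theorem fal_sf (h : FAL a b r) (d : ℕ) : ∃ l₀ : ℕ, ∀ (l : ℕ) [Fact l.Prime], l₀ < l →
    ∀ (z : Mor a b ℤ_[l]) (u : (ℂ ≃ₐ[K] ℂ) →* GL ω ℤ_[l]),
      (∀ σ, (r l σ : Matrix ν ν ℤ_[l]) = z.em (u σ)) → Sf1 u d := by
  obtain ⟨C, hC⟩ := h
  obtain ⟨N₀, hN₀⟩ := res_grow d C
  refine ⟨N₀, fun l _ hl z u hu U hU hd => ?_⟩
  by_contra hne
  obtain ⟨f, hf, hW⟩ := Submodule.exists_le_ker_of_lt_top _ (lt_top_iff_ne_top.2 hne)
  obtain ⟨x, hx⟩ := not_forall.1 (mt LinearMap.ext hf)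
  have h4 : l ≠ 0 := (Fact.out : l.Prime).ne_zero
  let s := z.map (PadicInt.toZMod (p := l))
  have h0 : zM (ZMod l) ((s.em x).map ZMod.cast) = s.em x := by
    ext i j
    exact ZMod.intCast_zmod_cast _
  have h5 := res_low (r := r) U h4 (PadicInt.toZMod (p := l)) (f ∘ₗ s.pr).toAddMonoidHom
    (fun σ hσ => by
      change f (s.pr _) = 0
      rw [hu, z.map_em, s.pr_em]
      exact hW (Submodule.subset_span ⟨σ, hσ, rfl⟩))
    (mem_CmN (h0.symm ▸ s.comm_a x) (h0.symm ▸ s.comm_b x))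
  have h6 : addOrderOf (f x) = l := addOrderOf_eq_prime (by simp) hx
  rw [h0] at h5
  change addOrderOf (f (s.pr _)) ≤ _ at h5
  rw [s.pr_em, h6] at h5
  refine absurd (h5.trans ((hC _ h4 U ⟨hU⟩).trans ?_)) (hN₀ _ hl.le).not_ge
  exact Nat.pow_le_pow_left (Nat.mul_le_mul_right _ hd) C

end M8
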