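import Pool.Agent.Lib.MP_33b3f9_ag.M8.W.SMain
import Pool.Agent.Lib.MP_33b3f9_ag.M8.W.Res
import Pool.Agent.Lib.MP_33b3f9_ag.M8.MorEx

/-!
The dichotomy.
-/

set_option autoImplicit false

noncomputable section

namespace M8

open Matrix Polynomial NumberField M4 M4.CM M5 Pool.Agent.M4.Mx Pool.Agent.Lib.MP_33b3f9_ag

variable {a b : MZ} {m n : ℕ} {τ : Mat} {K : IntermediateField ℚ ℂ} {r : Rep K}

/-- The factor of a representation that commutes with `a` and `b`. -/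
def Mor.fac {Γ R : Type} [Group Γ] [CommRing R] (s : Mor a b R) (ρ : Γ →* Matrix ν ν R)
    (h : ∀ σ, Commute (zM R a) (ρ σ) ∧ Commute (zM R b) (ρ σ)) : Γ →* Matrix ω ω R where
  toFun σ := s.pr (ρ σ)
  map_one' := by rw [map_one, s.pr_one]
  map_mul' σ σ' := s.em_inj (by
    rw [s.em_pr (h _).1 (h _).2, map_mul, map_mul, s.em_pr (h _).1 (h _).2, s.em_pr (h _).1 (h _).2])

theorem COMM.om (hc : COMM a b r) (l : ℕ) [Fact l.Prime] (σ : ℂ ≃ₐ[K] ℂ) :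
    Commute (zM (CM.Om l) a) (rO (r l) σ) ∧ Commute (zM (CM.Om l) b) (rO (r l) σ) :=
  ⟨zM_map (CM.toOm l) a ▸ (hc l σ).1.map (CM.toOm l).mapMatrix,
    zM_map (CM.toOm l) b ▸ (hc l σ).2.map (CM.toOm l).mapMatrix⟩

/-- The factors attached to a family of splittings. -/
def COMM.ws (hc : COMM a b r) (s : ∀ (l : ℕ) [Fact l.Prime], Mor a b (CM.Om l)) : WS a b r :=
  fun l _ => ⟨s l, (s l).fac (rO (r l)) (hc.om l), fun σ => (s l).em_pr (hc.om l σ).1 (hc.om l σ).2⟩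

/-- The family of splittings is integral at almost all primes. -/
def IntF (s : ∀ (l : ℕ) [Fact l.Prime], Mor a b (CM.Om l)) : Prop :=
  ∃ n₀ : ℕ, ∀ (l : ℕ) [Fact l.Prime], n₀ < l → ∃ z : Mor a b ℤ_[l], s l = z.map (CM.toOm l)

theorem exists_fam (hP : PEL a b m n) : ∃ s : ∀ (l : ℕ) [Fact l.Prime], Mor a b (CM.Om l),
    IntF s := by
  obtain ⟨n₀, h⟩ := exists_mor_padic hP
  have key : ∀ (l : ℕ) [Fact l.Prime], ∃ s : Mor a b (CM.Om l),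
      n₀ < l → ∃ z : Mor a b ℤ_[l], s = z.map (CM.toOm l) := fun l _ => by
    by_cases hl : n₀ < l
    · obtain ⟨z⟩ := h l hl
      exact ⟨_, fun _ => ⟨z, rfl⟩⟩
    · obtain ⟨s, -⟩ := exists_mor_closed hP (CM.Om l)
      exact ⟨s, fun h => absurd h hl⟩
  choose s hs using key
  exact ⟨s, n₀, hs⟩

variable {s : ∀ (l : ℕ) [Fact l.Prime], Mor a b (CM.Om l)}

theorem hyp (h : AV τ K r) (hP : PEL a b m n) (hc : COMM a b r) (hF : FAL a b r) (hs : IntF s)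
    (red : REDst τ r) (mu : MUst r) : Hyp τ (hc.ws s) := by
  refine ⟨h.fin, opn h, red, fun l _ σ => (mu l σ).imp fun _ x => x.1,
    fun l _ => fal_sq hP hF l _, fun d => ?_⟩
  obtain ⟨n₀, h0⟩ := hs
  obtain ⟨l₀, h1⟩ := fal_sf hF d
  refine ⟨max n₀ l₀, fun l _ hl => ?_⟩
  rw [max_lt_iff] at hl
  obtain ⟨z, hz⟩ := h0 l hl.1
  have h2 : ∀ σ, (r l σ : Matrix ν ν ℤ_[l]) =
      z.em ((z.fac ((Units.coeHom _).comp (r l)) (hc l)).toHomUnits σ) :=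
    fun σ => (z.em_pr (hc l σ).1 (hc l σ).2).symm
  exact ⟨z, _, ⟨hz, h2⟩, h1 l hl.2 z _ h2⟩

theorem exists_cbst {W : WS a b r} (H : Hyp τ W) {l₀ : ℕ} [Fact l₀.Prime] {f₀ : Fr ω (CM.Om l₀)}
    (B : Base W l₀ f₀) : ∃ (F : Type) (_ : Field F) (_ : NumberField F),
      Module.finrank ℚ F = 3 ∧ CBst τ r F := by
  obtain ⟨F, _, _, L, _, _, l₁, hF, h2, ⟨S⟩⟩ := exists_sys H B
  obtain ⟨p, _, e, σ, P, h0, -, -, h1⟩ := exists_frob H B l₁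
  exact ⟨F, _, ‹_›, hF, cb H hF S h2 (σ₀ := σ) fun l _ hl =>
    pow_one ((W l).w σ) ▸ h1 l (by omega) 1 one_ne_zero⟩

theorem W.dich (h : AV τ K r) (hP : PEL a b m n) (hc : COMM a b r) (hF : FAL a b r)
    (red : ∀ (K' : IntermediateField ℚ ℂ) (r' : Rep K'), AV τ K' r' → REDst τ r')
    (mu : ∀ (K' : IntermediateField ℚ ℂ) (r' : Rep K'), AV τ K' r' → MUst r')
    (core : ∀ (K' : IntermediateField ℚ ℂ) (r' : Rep K'), AV τ K' r' → COMM a b r' →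
      ∀ (F : Type) [Field F] [NumberField F], Module.finrank ℚ F = 3 → CBst τ r' F →
        ¬ GEN a b (cst τ)) : DICH a b τ r := by
  intro l _ U _
  obtain ⟨s, hs⟩ := exists_fam hP
  have H := hyp h hP hc hF hs (red _ _ h) (mu _ _ h)
  have h1 : ∀ Z ∈ (hc.ws s l).g U.normalCore, (s l).em Z ∈ tng (imU (r l) U) := fun Z hZ =>
    ((lie_tng _ _).trans (tng_mono fun _ ⟨σ, x, y⟩ => ⟨σ, U.normalCore_le x, y⟩)) hZ
  refine ⟨s l, ?_⟩
  rcases (hc.ws s l).g_type (U := U.normalCore) (H.gsp l) (H.sq l) with h2 | h2 | ⟨f, h2⟩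
  · exact .inl fun Z hZ =>
      h1 _ (h2.sp (Matrix.J_transpose _ _) (Matrix.isUnit_det_J _ _).ne_zero hZ)
  · exact absurd h2 (not_sym7 H l _)
  refine .inr ⟨⟨f, fun i => ⟨h1 _ (h2.1 (Submodule.subset_span ⟨(i, 0), rfl⟩)),
    h1 _ (h2.1 (Submodule.subset_span ⟨(i, 1), rfl⟩))⟩⟩, ?_⟩
  obtain ⟨χ, h3, k, h4⟩ := (hc.ws s l).pm_all h2
  obtain ⟨K₁, _, h5⟩ := H.opn (l ^ (k + 2)) (pow_ne_zero _ (Fact.out : l.Prime).ne_zero)
  have := h.fin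
  have hK : K ≤ K ⊔ K₁ := le_sup_left
  have h6 : ∀ (σ : ℂ ≃ₐ[↥(K ⊔ K₁)] ℂ) (j : ℕ), j ≤ k + 2 → res hK σ ∈ kerM (r l) j := fun σ j hj => by
    have a1 := h5 (res hK σ) (fun x hx => σ.commutes ⟨x, (le_sup_right : K₁ ≤ K ⊔ K₁) hx⟩) l
    rw [Nat.cast_pow] at a1
    choose Z hZ using fun x y => (pow_dvd_pow (l : ℤ_[l]) hj).trans (a1 x y)
    refine mem_kerM.2 ⟨Matrix.of Z, ?_⟩
    ext x y : 1
    have a2 := hZ x y
    rw [map_one, Units.val_one, sub_eq_iff_eq_add'] at a2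
    exact a2
  have h' := AV_res h hK
  obtain ⟨F, _, _, h7, h8⟩ := exists_cbst (hyp h' hP (comm_res hc hK) (fal_res hF hK) hs
    (red _ _ h') (mu _ _ h')) (l₀ := l) (f₀ := f)
    ⟨fun σ => kerM_le (h6 σ 2 (by omega)), fun σ => Pm.inC (by
      have a3 := h3 (res hK σ)
      rwa [MonoidHom.mem_ker.1 (h4 (h6 σ k (by omega)))] at a3)⟩
  exact core _ _ h' (comm_res hc hK) F h7 h8

end M8
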