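import Pool.Agent.Lib.MP_33b3f9_ag.M8.P.If
import Pool.Agent.Lib.MP_33b3f9_ag.M8.MorT
import Pool.Agent.Lib.MP_33b3f9_ag.M5.SDefs

/-!
The Lie algebra of an `l`-adic representation; the eight dimensional factor.
-/

set_option autoImplicit false

noncomputable section

namespace M8

open Matrix Polynomial M4 M4.CM M5 Pool.Agent.M4.Mx Pool.Agent.M4.Det
open scoped Kronecker

section loc

variable {Γ : Type} [Group Γ] {l : ℕ} [Fact l.Prime]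

/-- The limits of the quotients of `ρ σ - 1` by `l ^ n`. -/
def Lim (ρ : Γ →* GL ν ℤ_[l]) (U : Subgroup Γ) : Set (Matrix ν ν ℤ_[l]) :=
  {X | ∀ k : ℕ, ∃ n₀ : ℕ, ∀ n, n₀ ≤ n → ∃ σ ∈ U, ∃ Y : Matrix ν ν ℤ_[l],
    (ρ σ : Matrix ν ν ℤ_[l]) = 1 + (l : ℤ_[l]) ^ n • (X + (l : ℤ_[l]) ^ k • Y)}

/-- The Lie algebra. -/
def lie (ρ : Γ →* GL ν ℤ_[l]) (U : Subgroup Γ) : Submodule (CM.Om l) (Matrix ν ν (CM.Om l)) :=
  Submodule.span (CM.Om l) ((fun X => X.map (CM.toOm l)) '' Lim ρ U)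

/-- The representation over the algebraic closure. -/
def rO (ρ : Γ →* GL ν ℤ_[l]) : Γ →* Matrix ν ν (CM.Om l) :=
  ((CM.toOm l).mapMatrix.toMonoidHom.comp (Units.coeHom _)).comp ρ

/-- The kernel modulo `l ^ n`. -/
def kerM (ρ : Γ →* GL ν ℤ_[l]) (n : ℕ) : Subgroup Γ :=
  ((Matrix.GeneralLinearGroup.map (PadicInt.toZModPow n)).comp ρ).ker

/-- Symplectic similitudes. -/
def Gsp (ρ : Γ →* GL ν ℤ_[l]) : Prop :=
  ∀ σ, ∃ c : ℤ_[l], (ρ σ : Matrix ν ν ℤ_[l])ᵀ * Matrix.J (Fin 8) ℤ_[l] * (ρ σ : Matrix ν ν ℤ_[l]) =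
    c • Matrix.J (Fin 8) ℤ_[l]

/-- Congruent to `1` modulo `l ^ 2`. -/
def Neat (A : Matrix ν ν (CM.Om l)) : Prop := Le (A - 1) ((l : ℝ) ^ (-2 : ℤ))

/-- The eight dimensional factor of `ρ`. -/
structure Lw (a b : MZ) (ρ : Γ →* GL ν ℤ_[l]) where
  /-- the splitting -/
  s : Mor a b (CM.Om l)
  /-- the factor -/
  w : Γ →* Matrix ω ω (CM.Om l)
  eq : ∀ σ, s.em (w σ) = rO ρ σ

variable {a b : MZ} {ρ : Γ →* GL ν ℤ_[l]}

/-- The Lie algebra of the factor. -/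
def Lw.g (W : Lw a b ρ) (U : Subgroup Γ) : Submodule (CM.Om l) (Matrix ω ω (CM.Om l)) :=
  (lie ρ U).comap W.s.em.toLinearMap

/-- The image of a subgroup. -/
def Lw.im (W : Lw a b ρ) (U : Subgroup Γ) : Submonoid (Matrix ω ω (CM.Om l)) :=
  U.toSubmonoid.map W.w

/-- Every subgroup of finite index spans all matrices. -/
def Lw.Sq (W : Lw a b ρ) : Prop :=
  ∀ U : Subgroup Γ, U.FiniteIndex → Submodule.span (CM.Om l) (W.w '' U) = ⊤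

/-- An integral model of the factor. -/
structure Lw.Int (W : Lw a b ρ) (z : Mor a b ℤ_[l]) (u : Γ →* GL ω ℤ_[l]) : Prop where
  s : W.s = z.map (CM.toOm l)
  eq : ∀ σ, (ρ σ : Matrix ν ν ℤ_[l]) = z.em (u σ)

/-- An integral frame whose slots are labelled by the embeddings of `F`. -/
structure Ten {F : Type} [Field F] (W : Lw a b ρ) (ι : Fin 3 → F →+* CM.Om l)
    (f : Fr ω (CM.Om l)) : Prop where
  inj : Function.Injective ι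
  S_le : Le W.s.S 1
  S'_le : Le W.s.S' 1
  P_le : Le f.P 1
  Q_le : Le f.Q 1
  ex : ∀ σ, ∃ h : Fin 3 → M2 (CM.Om l), (∀ i, Le (h i) 1) ∧ W.w σ = f.T h
  gal : ∀ θ, ∃ π : Equiv.Perm (Fin 3), (∀ i, Gal f θ i (π i)) ∧ ∀ i x, θ (ι i x) = ι (π i) x
  fix : ∀ (θ : CM.Om l ≃ₐ[ℚ_[l]] CM.Om l) σ, (W.w σ).map θ = W.w σ

end loc

section fr

variable {a b : MZ} {R : Type} [CommRing R]

/-- From the cube. -/
def Mor.cP (s : Mor a b R) (f : Fr ω R) : Matrix ν (κ × Fin 2) R := s.S * f.P ⊗ₖ (1 : M2 R)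

/-- To the cube. -/
def Mor.cQ (s : Mor a b R) (f : Fr ω R) : Matrix (κ × Fin 2) ν R := f.Q ⊗ₖ (1 : M2 R) * s.S'

end fr

variable {K : IntermediateField ℚ ℂ}

/-- The representation with coefficients in `Om l`. -/
def ro (r : Rep K) (l : ℕ) [Fact l.Prime] (σ : ℂ ≃ₐ[K] ℂ) : Matrix ν ν (CM.Om l) :=
  (rq r l σ).map (algebraMap ℚ_[l] (CM.Om l))

/-- `r σ = r σ'` modulo `N`. -/
def Eqm (r : Rep K) (N : ℕ) (σ σ' : ℂ ≃ₐ[K] ℂ) : Prop :=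
  ∀ (l : ℕ) [Fact l.Prime] (i j : ν),
    (N : ℤ_[l]) ∣ (r l σ : Matrix ν ν ℤ_[l]) i j - (r l σ' : Matrix ν ν ℤ_[l]) i j

/-- The kernel of `r` modulo `N` is open. -/
def Opn (r : Rep K) : Prop :=
  ∀ N : ℕ, N ≠ 0 → ∃ K₁ : IntermediateField ℚ ℂ, FiniteDimensional ℚ K₁ ∧
    ∀ σ : ℂ ≃ₐ[K] ℂ, (∀ x ∈ K₁, σ x = x) → Eqm r N σ 1

/-- The factors at all primes. -/
abbrev WS (a b : MZ) (r : Rep K) : Type := ∀ (l : ℕ) [Fact l.Prime], Lw a b (r l)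

variable {a b : MZ} {r : Rep K}

/-- `P` is the characteristic polynomial of `σ` on the factor. -/
structure Wei (W : WS a b r) (p : ℕ) (σ : ℂ ≃ₐ[K] ℂ) (P : ℤ[X]) : Prop where
  base : Weil r p σ P
  deg : P.natDegree = 8
  char : ∀ (l : ℕ) [Fact l.Prime], l ≠ p →
    ((W l).w σ).charpoly = P.map (Int.castRingHom (CM.Om l))

/-- The standing hypotheses. -/
structure Hyp (τ : Mat) (W : WS a b r) : Prop where
  fin : FiniteDimensional ℚ K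
  opn : Opn r
  red : REDst τ r
  gsp : ∀ (l : ℕ) [Fact l.Prime], Gsp (r l)
  sq : ∀ (l : ℕ) [Fact l.Prime], (W l).Sq
  sf : ∀ d : ℕ, ∃ l₀ : ℕ, ∀ (l : ℕ) [Fact l.Prime], l₀ < l → ∃ z u, (W l).Int z u ∧ Sf1 u d

/-- At the prime `l₀` the image is neat and lies in a cube. -/
structure Base (W : WS a b r) (l₀ : ℕ) [Fact l₀.Prime] (f₀ : Fr ω (CM.Om l₀)) : Prop where
  neat : ∀ σ, Neat (ro r l₀ σ)
  inC : ∀ σ, ∃ x, (W l₀).w σ = f₀.T x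

/-- A system of frames, rational at the primes that split in `L`. -/
structure Sys (W : WS a b r) (F L : Type) [Field F] [Field L] (l₁ : ℕ) where
  /-- the embeddings -/
  ι : ∀ (l : ℕ) [Fact l.Prime], Fin 3 → F →+* CM.Om l
  /-- the frames -/
  f : ∀ (l : ℕ) [Fact l.Prime], Fr ω (CM.Om l)
  /-- the reductions -/
  A : ∀ l : ℕ, Matrix (κ × Fin 2) ν (ZMod l)
  /-- the reductions -/
  A' : ∀ l : ℕ, Matrix ν (κ × Fin 2) (ZMod l)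
  ten : ∀ (l : ℕ) [Fact l.Prime], l₁ < l → Ten (W l) (ι l) (f l)
  spl : ∀ (l : ℕ) [Fact l.Prime], l₁ < l → NT.Spl L l → l ≡ 1 [MOD 32] ∧
    (∀ (j : F →+* CM.Om l) x, j x ∈ NT.Qp l) ∧ TS r l (A l) (A' l) ∧
      ∃ (z : Mor a b ℤ_[l]) (fz : Fr ω ℤ_[l]), (W l).s = z.map (CM.toOm l) ∧
        f l = fz.map (CM.toOm l) ∧ A l = (z.cQ fz).map PadicInt.toZMod ∧
          ∀ σ, ∃ hz, (W l).w σ = (fz.T hz).map (CM.toOm l)

theorem rO_eq (r : Rep K) (l : ℕ) [Fact l.Prime] (σ : ℂ ≃ₐ[K] ℂ) : rO (r l) σ = ro r l σ := rfl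

end M8
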