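import Pool.Agent.Lib.MP_33b3f9_ag.M8.W.ALogA
import Pool.Agent.Lib.MP_33b3f9_ag.M5.AReg
import Pool.Agent.Lib.MP_33b3f9_ag.M5.BPhA

/-!
Continuity; the factor at a prime.
-/

set_option autoImplicit false

noncomputable section

namespace M8

open Matrix Polynomial M4 M4.CM M5 Pool.Agent.M4.Mx Pool.Agent.Lib.MP_33b3f9_ag

variable {Γ : Type} [Group Γ] {l : ℕ} [Fact l.Prime] {ρ : Γ →* GL ν ℤ_[l]} {U : Subgroup Γ}
  {a b : MZ}

theorem near {F : Matrix ν ν ℤ_[l] → CM.Om l} (hF : Continuous F) (X : Matrix ν ν ℤ_[l]) {ε : ℝ}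
    (hε : 0 < ε) : ∃ k : ℕ, ∀ Y : Matrix ν ν ℤ_[l], ‖F (X + (l : ℤ_[l]) ^ k • Y) - F X‖ < ε := by
  have h1 : Continuous fun Z : ν → ν → ℤ_[l] => F (Matrix.of Z) := hF
  obtain ⟨δ, h2, h3⟩ := Metric.continuous_iff.1 h1 (Matrix.of.symm X) ε hε
  obtain ⟨k, hk⟩ := PadicInt.exists_pow_neg_lt l h2
  refine ⟨k, fun Y => ?_⟩
  rw [← dist_eq_norm]
  refine h3 (Matrix.of.symm (X + (l : ℤ_[l]) ^ k • Y)) ?_
  rw [dist_pi_lt_iff h2]
  intro i
  rw [dist_pi_lt_iff h2]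
  intro j
  refine lt_of_le_of_lt ?_ hk
  rw [dist_eq_norm]
  change ‖X i j + (l : ℤ_[l]) ^ k * Y i j - X i j‖ ≤ _
  rw [add_sub_cancel_left, norm_mul, PadicInt.norm_p_pow]
  exact mul_le_of_le_one_right (by positivity) (PadicInt.norm_le_one _)

theorem cont_pr (s : Mor a b (CM.Om l)) :
    Continuous fun X : Matrix ν ν ℤ_[l] => s.pr (X.map (CM.toOm l)) := by
  have h : Continuous fun X : Matrix ν ν ℤ_[l] => s.S' * X.map (CM.toOm l) * s.S :=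
    (continuous_const.matrix_mul (continuous_id.matrix_map mxLim_cont')).matrix_mul continuous_const
  exact continuous_matrix fun i j => h.matrix_elem _ _

theorem cont_Dq : Continuous (Dq : Matrix ω ω (CM.Om l) → CM.Om l) := by
  unfold Dq
  exact (continuous_matrix fun i j => (continuous_id.pow _).matrix_trace).matrix_det

theorem cont_Ph : Continuous (Ph : Matrix ω ω (CM.Om l) → CM.Om l) := by
  have h1 : Continuous (mu : Matrix ω ω (CM.Om l) → CM.Om l) :=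
    ((continuous_id.matrix_transpose.matrix_mul continuous_const).matrix_mul
      continuous_id).matrix_elem _ _
  have h2 : ∀ k : ℕ, Continuous fun g : Matrix ω ω (CM.Om l) => (g ^ k).trace := fun k =>
    (continuous_id.pow _).matrix_trace
  have h3 : Continuous fun g : Matrix ω ω (CM.Om l) => g.trace := continuous_id.matrix_trace
  have h4 := h2 2
  have h5 := h2 3
  have h6 := h2 4
  unfold Ph
  fun_prop

theorem Mor.root_le (s : Mor a b (CM.Om l)) {A : Matrix ω ω (CM.Om l)} (h : Le (s.em A) 1)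
    {z : CM.Om l} (hz : A.charpoly.eval z = 0) : ‖z‖ ≤ 1 :=
  h.root (by rw [s.charpoly_em, eval_pow, hz, zero_pow two_ne_zero])

theorem Mor.Dq_pow_le (s : Mor a b (CM.Om l)) {A : Matrix ω ω (CM.Om l)} (h : Le (s.em A) 1)
    (k : ℕ) : ‖Dq (A ^ k)‖ ≤ ‖Dq A‖ := by
  obtain ⟨c, ha⟩ := exists_roots8 A
  have h1 := Dq_eq A c ha 1
  simp only [pow_one] at h1
  have h2 : ∀ i, ‖c i ^ 2‖ ≤ 1 := fun i => cmDq_sq (s.root_le h (cmDq_root ha i))
  rw [h1, Dq_eq A c ha k, norm_pow, norm_pow, norm_prod, norm_prod]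
  refine pow_le_pow_left₀ (Finset.prod_nonneg fun _ _ => norm_nonneg _)
    (Finset.prod_le_prod (fun _ _ => norm_nonneg _) fun i _ => ?_) 2
  rw [norm_prod, norm_prod]
  exact Finset.prod_le_prod (fun _ _ => norm_nonneg _) fun j _ => cmDq_pow (h2 j) (h2 i) k

theorem Mor.reg (s : Mor a b (CM.Om l)) {A : Matrix ω ω (CM.Om l)} (h : Neat (s.em A))
    (h1 : A.charpoly.roots.Nodup) : Reg A := by
  obtain ⟨c, ha⟩ := exists_roots8 A
  rw [ha, cmspec_roots, Fintype.nodup_map_univ_iff_injective] at h1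
  have hl : (1 : ℝ) < l := Nat.one_lt_cast.2 (Fact.out : l.Prime).one_lt
  have hl0 : (0 : ℝ) < l := zero_lt_one.trans hl
  have hc : ‖((l : CM.Om l) ^ 2)⁻¹‖ = (l : ℝ) ^ 2 := by
    rw [norm_inv, norm_pow, norm_l, inv_pow, inv_inv]
  have h2 : ∀ i, ‖c i - 1‖ < (l : ℝ)⁻¹ := fun i => by
    have h3 := h.smul ((l : CM.Om l) ^ 2)⁻¹
    rw [hc, _root_.zpow_neg, zpow_ofNat, mul_inv_cancel₀ (pow_pos hl0 2).ne', ← map_one s.em,
      ← map_sub, ← map_smul, smul_sub, sub_eq_add_neg, ← neg_smul] at h3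
    have h4 := s.root_le h3 (cmDq_root (areg_aff ha _ _) i)
    rw [← sub_eq_add_neg, ← mul_sub_one, norm_mul, hc] at h4
    refine (((le_inv_mul_iff₀ (pow_pos hl0 2)).2 h4).trans_eq (mul_one _)).trans_lt ?_
    exact inv_strictAnti₀ hl0 (lt_self_pow₀ hl one_lt_two)
  intro m hm
  rw [Dq_eq A c ha m]
  refine pow_ne_zero _ (Finset.prod_ne_zero_iff.2 fun i _ => Finset.prod_ne_zero_iff.2
    fun j hj h3 => (Finset.mem_Ioi.1 hj).ne' (h1 ?_))
  have h4 : ‖c i‖ = 1 := by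
    have h5 := IsUltrametricDist.norm_add_eq_max_of_norm_ne_norm (x := c i - 1) (y := 1)
      (((h2 i).trans (inv_lt_one_of_one_lt₀ hl)).trans_eq norm_one.symm).ne
    rw [sub_add_cancel, norm_one] at h5
    rw [h5, max_eq_right ((h2 i).trans (inv_lt_one_of_one_lt₀ hl)).le]
  have h5 : c i ≠ 0 := norm_ne_zero_iff.1 (h4.trans_ne one_ne_zero)
  refine (div_eq_one_iff_eq h5).1 (eq_one_of_near ?_ (mul_ne_zero two_ne_zero hm) ?_)
  · rw [div_sub_one h5, norm_div, h4, div_one, ← sub_sub_sub_cancel_right _ _ 1]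
    exact (cmDq_sub (le_max_left _ _) (le_max_right _ _)).trans_lt (max_lt (h2 j) (h2 i))
  · rw [div_pow, pow_mul, pow_mul, sub_eq_zero.1 h3, div_self (pow_ne_zero _ (pow_ne_zero _ h5))]

theorem Mor.reg' (s : Mor a b (CM.Om l)) {A : Matrix ω ω (CM.Om l)} (h : Neat (s.em A))
    (h1 : Dq A ≠ 0) : Reg A :=
  s.reg h (Multiset.Nodup.of_map _ ((Dq_ne_iff A).1 h1))

namespace Lw

variable (W : Lw a b ρ)

theorem w_eq (σ : Γ) : W.w σ = W.s.pr ((ρ σ : Matrix ν ν ℤ_[l]).map (CM.toOm l)) := by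
  rw [← alim_rO, ← W.eq, W.s.pr_em]

theorem le (σ : Γ) : Le (W.s.em (W.w σ)) 1 := by
  rw [W.eq, alim_rO]
  exact le_toOm _

theorem det_ne (σ : Γ) : (W.w σ).det ≠ 0 :=
  ((isUnit_iff_isUnit_det _).1 ((Group.isUnit σ).map W.w)).ne_zero

theorem Dq_pow (σ : Γ) (k : ℕ) : ‖Dq (W.w σ ^ k)‖ ≤ ‖Dq (W.w σ)‖ := W.s.Dq_pow_le (W.le σ) k

/-- Continuous functions of the factor respect congruences. -/
theorem near {F : Matrix ω ω (CM.Om l) → CM.Om l} (hF : Continuous F) (σ₀ : Γ) {ε : ℝ}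
    (hε : 0 < ε) : ∃ k : ℕ, ∀ σ, (∀ i j, (l : ℤ_[l]) ^ k ∣ (ρ σ₀ : Matrix ν ν ℤ_[l]) i j -
      (ρ σ : Matrix ν ν ℤ_[l]) i j) → ‖F (W.w σ) - F (W.w σ₀)‖ < ε := by
  obtain ⟨k, hk⟩ := M8.near (hF.comp (cont_pr W.s)) (ρ σ₀ : Matrix ν ν ℤ_[l]) hε
  refine ⟨k, fun σ h => ?_⟩
  choose Y hY using h
  have h1 := hk (-Matrix.of Y)
  have e : (ρ σ₀ : Matrix ν ν ℤ_[l]) + (l : ℤ_[l]) ^ k • (-Matrix.of Y) = ρ σ := by
    ext i j : 1
    rw [Matrix.add_apply, Matrix.smul_apply, Matrix.neg_apply, of_apply, smul_eq_mul, mul_neg,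
      ← hY, neg_sub, add_sub_cancel]
  rw [e] at h1
  rw [W.w_eq, W.w_eq]
  exact h1

theorem kerM_le (n : ℕ) : ∃ m, ∀ σ ∈ kerM ρ m, Le (W.w σ - 1) ((l : ℝ) ^ (-(n : ℤ))) := by
  have h0 : (0 : ℝ) < (l : ℝ) ^ (-(n : ℤ)) := zpow_pos (Nat.cast_pos.2 (Fact.out : l.Prime).pos) _
  choose k hk using fun p : ω × ω => W.near (F := fun A => A p.1 p.2)
    (continuous_id.matrix_elem _ _) 1 h0
  refine ⟨Finset.univ.sup k, fun σ hσ i j => ?_⟩
  obtain ⟨Z, hZ⟩ := mem_kerM.1 hσ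
  have h1 := hk (i, j) σ fun p q => by
    rw [map_one, Units.val_one, hZ, Matrix.add_apply, sub_add_cancel_left, dvd_neg]
    exact (pow_dvd_pow _ (Finset.le_sup (Finset.mem_univ (i, j)))).mul_right _
  rw [map_one] at h1
  exact h1.le

theorem sim_iff (σ : Γ) (c : CM.Om l) : (W.w σ)ᵀ * J (Fin 4) (CM.Om l) * W.w σ = c • J (Fin 4) _ ↔
    (rO ρ σ)ᵀ * J (Fin 8) (CM.Om l) * rO ρ σ = c • J (Fin 8) _ := by
  rw [← W.s.sim_iff, W.eq]

variable {W} {z : Mor a b ℤ_[l]} {u : Γ →* GL ω ℤ_[l]}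

theorem Int.w_eq (h : W.Int z u) (σ : Γ) : W.w σ = M5.rO u σ := by
  refine W.s.em_inj ?_
  rw [W.eq, alim_rO, h.eq, z.map_em, h.s]
  rfl

end Lw

end M8
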