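import Pool.Agent.Lib.MP_33b3f9_ag.M8.W.AType

/-!
Regular elements.
-/

set_option autoImplicit false

noncomputable section

namespace M8

open Matrix Polynomial M4 M4.CM M5 Pool.Agent.M4.Mx Pool.Agent.Lib.MP_33b3f9_ag

variable {Γ : Type} [Group Γ] {l : ℕ} [Fact l.Prime] {ρ : Γ →* GL ν ℤ_[l]} {U : Subgroup Γ}
  {a b : MZ}

theorem lim_nsmul {X : Matrix ν ν ℤ_[l]} (hX : X ∈ Lim ρ U) (n : ℕ) : n • X ∈ Lim ρ U := by
  induction n with
  | zero => rw [zero_nsmul]; exact lim_zero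
  | succ n ih => rw [succ_nsmul]; exact lim_add ih hX

theorem Lw.exists_reg (W : Lw a b ρ) (h : ∃ x ∈ (W.g U).map tl,
    x.charpoly = ∏ j : Fin 8, (X - C (7 - 2 * ((j : ℕ) : CM.Om l)))) :
    ∃ σ ∈ U, Neat (rO ρ σ) ∧ Reg (W.w σ) := by
  obtain ⟨_, ⟨y, hy, rfl⟩, hx⟩ := h
  have h1 : ∃ s ∈ Lim ρ U, Dq ((8 : CM.Om l) • (1 : Matrix ω ω (CM.Om l)) +
      tl (W.s.pr (s.map (CM.toOm l)))) ≠ 0 := by
    by_contra! h1
    have h2 : Dq ((8 : CM.Om l) • (1 : Matrix ω ω (CM.Om l)) + tl (W.s.pr (W.s.em y))) = 0 := by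
      refine areg_span (P := fun Z => Dq ((8 : CM.Om l) • (1 : Matrix ω ω (CM.Om l)) +
        tl (W.s.pr Z)) = 0) (fun A B hn c => ?_) ?_ ?_ ?_ hy
      · simp only [map_add, map_smul, ← add_assoc] at hn ⊢
        exact areg_line _ _ hn c
      · exact ⟨0, lim_zero, Matrix.map_zero _ (map_zero _)⟩
      · rintro _ ⟨s, hs, rfl⟩ _ ⟨t, ht, rfl⟩ n
        refine ⟨_, lim_add hs (lim_nsmul ht n), Matrix.ext fun i j => ?_⟩
        simp only [map_apply, Matrix.add_apply, Matrix.smul_apply, map_add, map_nsmul,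
          Nat.cast_smul_eq_nsmul]
      · rintro _ ⟨s, hs, rfl⟩
        exact h1 s hs
    rw [W.s.pr_em] at h2
    refine (Dq_ne_iff _).2 ?_ h2
    have h3 := areg_aff hx 1 8
    rw [one_smul, add_comm] at h3
    rw [h3, sp2_iff]
    intro i j hij
    have h4 : (1 * (7 - 2 * ((i : ℕ) : ℤ)) + 8) ^ 2 = (1 * (7 - 2 * ((j : ℕ) : ℤ)) + 8) ^ 2 := by
      refine Int.cast_injective (α := CM.Om l) ?_
      push_cast
      exact hij
    have := i.2
    have := j.2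
    rcases sq_eq_sq_iff_eq_or_eq_neg.1 h4 with h5 | h5 <;> omega
  obtain ⟨s, hs, h1⟩ := h1
  have hc : Continuous fun Z : Matrix ν ν ℤ_[l] => Dq ((8 : CM.Om l) • (1 : Matrix ω ω (CM.Om l)) +
      tl (W.s.pr (Z.map (CM.toOm l)))) := by
    have h2 : Continuous fun B : Matrix ω ω (CM.Om l) =>
        (8 : CM.Om l) • (1 : Matrix ω ω (CM.Om l)) + tl B := by
      simp only [atype_tl]
      exact continuous_const.add (continuous_id.sub
        ((continuous_const.mul continuous_id.matrix_trace).smul continuous_const))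
    have h3 := (cont_Dq.comp' h2).comp' (cont_pr W.s)
    exact h3
  obtain ⟨k, hk⟩ := M8.near hc s (norm_pos_iff.2 h1)
  obtain ⟨n, hn⟩ := hs k
  obtain ⟨σ, hσ, Y, hY⟩ := hn (n + 2) le_self_add
  have h3 : Neat (rO ρ σ) := M8.kerM_le (n := 2) (mem_kerM.2
    ⟨(l : ℤ_[l]) ^ n • (s + (l : ℤ_[l]) ^ k • Y), by rw [hY, smul_smul, ← pow_add, add_comm 2]⟩)
  refine ⟨σ, hσ, h3, W.s.reg (W.eq σ ▸ h3) ?_⟩
  have h4 := hk Y
  rw [W.w_add hY]
  generalize W.s.pr ((s + (l : ℤ_[l]) ^ k • Y).map (CM.toOm l)) = B at h4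
  have h5 : Dq ((8 : CM.Om l) • (1 : Matrix ω ω (CM.Om l)) + tl B) ≠ 0 := fun h5 => by
    rw [h5, zero_sub, norm_neg] at h4
    exact lt_irrefl _ h4
  obtain ⟨c, hc⟩ := exists_roots8 B
  have h6 : (8 : CM.Om l) • (1 : Matrix ω ω (CM.Om l)) + tl B =
      (1 : CM.Om l) • B + (8 - 8⁻¹ * B.trace) • (1 : Matrix ω ω (CM.Om l)) := by
    rw [atype_tl]
    module
  rw [h6, Dq_ne_iff, areg_aff hc, sp2_iff] at h5
  rw [add_comm, ← one_smul (CM.Om l) (1 : Matrix ω ω (CM.Om l)), areg_aff hc, cmspec_roots,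
    Fintype.nodup_map_univ_iff_injective]
  intro i j hij
  have h7 : (l : CM.Om l) ^ (n + 2) ≠ 0 :=
    pow_ne_zero _ (Nat.cast_ne_zero.2 (Fact.out : l.Prime).ne_zero)
  exact h5 (congrArg (fun z => (1 * z + (8 - 8⁻¹ * B.trace)) ^ 2)
    (mul_left_cancel₀ h7 (add_right_cancel hij)))

end M8
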