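import Pool.Agent.Lib.MP_33b3f9_ag.M8.W.ANear
import Pool.Agent.Lib.MP_33b3f9_ag.M5.BGal

/-!
The Lie algebra of the factor; the three types.
-/

set_option autoImplicit false

noncomputable section

namespace M8

open Matrix Polynomial M4 M4.CM M5 Pool.Agent.M4.Mx Pool.Agent.Lib.MP_33b3f9_ag

variable {Γ : Type} [Group Γ] {l : ℕ} [Fact l.Prime] {ρ : Γ →* GL ν ℤ_[l]} {U : Subgroup Γ}
  {a b : MZ}

theorem type_of {Ω : Type} [Field Ω] [IsAlgClosed Ω] [CharZero Ω]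
    {g : Submodule Ω (Matrix ω ω Ω)} (hc : Cl g) (H : Irr (Matrix.J (Fin 4) Ω) (g.map tl)) :
    Full (Matrix.J (Fin 4) Ω) g ∨ Sym7 (g.map tl) ∨ ∃ f, Cu f g := by
  have h2 : (2 : Ω) ≠ 0 := two_ne_zero
  rcases classify H with hF | hS | ⟨F, hF⟩
  · refine Or.inl fun u => ?_
    by_cases hu : u = 0
    · rw [hu, sqm, zero_vecMulVec]
      exact zero_mem _
    obtain ⟨w, hw⟩ : ∃ w, u ⬝ᵥ Matrix.J (Fin 4) Ω *ᵥ w ≠ 0 := by
      by_contra h
      push Not at h
      refine hu (Matrix.eq_zero_of_vecMul_eq_zero H.det (dotProduct_eq_zero_iff.1 fun w => ?_))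
      rw [← dotProduct_mulVec, h]
    have hd : dotm (Matrix.J (Fin 4) Ω) u w ∈ g.map tl := by
      have := sub_mem (hF (u + w)) (add_mem (hF u) (hF w))
      rwa [sqm_add, add_sub_cancel_left] at this
    have h1 := atype_br hc hd (hF u)
    rw [br, lie_sqm (dotm_sp H.skew u w), dotm_mulVec, trans_alt H.skew, zero_smul, add_zero,
      dotm_smul_left, dotm_self, smul_smul] at h1
    exact (Submodule.smul_mem_iff _ (mul_ne_zero hw h2)).1 h1
  · exact Or.inr (Or.inl hS)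
  · have hm : ∀ (s : Fin 3) (i : Fin 3), F.u s (bas _ i.succ) ∈ g.map tl := fun s i =>
      hF ▸ Submodule.subset_span ⟨(s, i), rfl⟩
    have hb : ∀ (s : Fin 3) (i j : Fin 3), F.u s (bas _ i.succ * bas _ j.succ -
        bas _ j.succ * bas _ i.succ) ∈ g := fun s i j => by
      rw [map_sub, map_mul, map_mul]
      exact atype_br hc (hm s i) (hm s j)
    refine Or.inr (Or.inr ⟨F, Submodule.span_le.2 ?_, fun X hX => ?_⟩)
    · rintro _ ⟨⟨s, i⟩, rfl⟩
      fin_cases i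
      · have := hb s 2 0
        rw [show (2 : Fin 3).succ = 3 from rfl, show (0 : Fin 3).succ = 1 from rfl, atype_bas.1,
          map_smul] at this
        exact (Submodule.smul_mem_iff _ h2).1 this
      · have := hb s 1 2
        rw [show (2 : Fin 3).succ = 3 from rfl, show (1 : Fin 3).succ = 2 from rfl, atype_bas.2,
          map_smul] at this
        exact (Submodule.smul_mem_iff _ h2).1 this
      · have := hb s 0 1
        rwa [show (1 : Fin 3).succ = 2 from rfl, show (0 : Fin 3).succ = 1 from rfl, bas_br] at this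
    · have h1 : F.sl ≤ F.m := Submodule.span_le.2 (by
        rintro _ ⟨p, rfl⟩
        exact F.u_mem_m _ _)
      have h3 : tl X ∈ F.m := h1 (hF ▸ Submodule.mem_map_of_mem hX)
      have h4 : (1 : Matrix ω ω Ω) ∈ F.m := map_one (F.u 0) ▸ F.u_mem_m 0 1
      have := add_mem h3 (F.m.smul_mem ((8 : Ω)⁻¹ * X.trace) h4)
      rwa [atype_tl, sub_add_cancel] at this

theorem sp_tl {Ω : Type} [Field Ω] [CharZero Ω] {X : Matrix ω ω Ω} {c : Ω}
    (hc : Xᵀ * J (Fin 4) Ω + J (Fin 4) Ω * X = c • J (Fin 4) Ω) : Sp (J (Fin 4) Ω) (tl X) := by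
  set E := J (Fin 4) Ω with hE
  have h1 := congrArg (fun A => (E * A).trace) hc
  simp only [mul_add, trace_add, mul_smul_comm, trace_smul] at h1
  rw [trace_mul_comm, mul_assoc, ← mul_assoc E, hE, J_squared] at h1
  have h2 : c = 2 * ((8 : Ω)⁻¹ * X.trace) := by
    simp only [mul_neg, neg_mul, mul_one, one_mul, trace_neg, trace_transpose, trace_one,
      smul_eq_mul, Fintype.card_sum, Fintype.card_fin] at h1
    push_cast at h1
    linear_combination (8 : Ω)⁻¹ * h1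
  change (X - (8 : Ω)⁻¹ • X.trace • 1)ᵀ * E + E * (X - (8 : Ω)⁻¹ • X.trace • 1) = 0
  rw [transpose_sub, transpose_smul, transpose_smul, transpose_one, sub_mul, mul_sub,
    sub_add_sub_comm, hc, h2]
  simp only [smul_mul_assoc, mul_smul_comm, one_mul, mul_one]
  module

theorem lie_gsp (hg : Gsp ρ) {X : Matrix ν ν (CM.Om l)} (hX : X ∈ lie ρ U) :
    ∃ c : CM.Om l, Xᵀ * J (Fin 8) (CM.Om l) + J (Fin 8) (CM.Om l) * X = c • J (Fin 8) (CM.Om l) := by
  induction hX using Submodule.span_induction with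
  | mem x hx =>
    obtain ⟨Y, hY, rfl⟩ := hx
    obtain ⟨c, hc⟩ := alog_lim hg hY
    refine ⟨CM.toOm l c, ?_⟩
    rw [← map_J (Fin 8) (CM.toOm l), ← transpose_map, ← Matrix.map_mul, ← Matrix.map_mul,
      ← Matrix.map_add _ (map_add _), hc, Matrix.map_smul' _ _ _ (map_mul _)]
  | zero => exact ⟨0, by simp⟩
  | add x y _ _ hx hy =>
    obtain ⟨a, ha⟩ := hx
    obtain ⟨b, hb⟩ := hy
    exact ⟨a + b, by rw [add_smul, ← ha, ← hb, transpose_add, add_mul, mul_add]; abel⟩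
  | smul a x _ hx =>
    obtain ⟨b, hb⟩ := hx
    exact ⟨a * b, by
      rw [mul_smul, ← hb, transpose_smul, smul_mul_assoc, mul_smul_comm, smul_add]⟩

theorem map_one_add (n : ℕ) (Z : Matrix ν ν ℤ_[l]) :
    (1 + (l : ℤ_[l]) ^ n • Z).map (CM.toOm l) = 1 + (l : CM.Om l) ^ n • Z.map (CM.toOm l) := by
  rw [Matrix.map_add _ (map_add _), Matrix.map_one _ (map_zero _) (map_one _),
    Matrix.map_smul' _ _ _ (map_mul _), map_pow, map_natCast]

namespace Lw

variable (W : Lw a b ρ)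

theorem w_add {σ : Γ} {n : ℕ} {Z : Matrix ν ν ℤ_[l]}
    (h : (ρ σ : Matrix ν ν ℤ_[l]) = 1 + (l : ℤ_[l]) ^ n • Z) :
    W.w σ = 1 + (l : CM.Om l) ^ n • W.s.pr (Z.map (CM.toOm l)) := by
  rw [W.w_eq, h, map_one_add, map_add, map_smul, W.s.pr_one]

theorem em_lim {X : Matrix ν ν ℤ_[l]} (hX : X ∈ Lim ρ U) :
    W.s.em (W.s.pr (X.map (CM.toOm l))) = X.map (CM.toOm l) := by
  ext i j
  by_contra h0
  have h1 : Continuous fun Z : Matrix ν ν ℤ_[l] =>
      W.s.em (W.s.pr (Z.map (CM.toOm l))) i j - Z.map (CM.toOm l) i j := by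
    refine Continuous.sub ?_ ((continuous_id.matrix_map mxLim_cont').matrix_elem _ _)
    simp only [Mor.em_apply, Matrix.mul_apply, kroneckerMap_apply]
    have h2 := fun p q => (cont_pr W.s).matrix_elem p q
    fun_prop
  obtain ⟨k, hk⟩ := M8.near h1 X (norm_pos_iff.2 (sub_ne_zero.2 h0))
  obtain ⟨n, hn⟩ := hX k
  obtain ⟨σ, -, Y, h⟩ := hn n le_rfl
  have h2 := W.eq σ
  rw [W.w_add h, alim_rO, h, map_one_add, map_add, map_one, map_smul, add_right_inj,
    smul_right_inj (pow_ne_zero _ (Nat.cast_ne_zero.2 (Fact.out : l.Prime).ne_zero))] at h2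
  have h3 := hk Y
  rw [h2, sub_self, zero_sub, norm_neg] at h3
  exact lt_irrefl _ h3

theorem em_lie {X : Matrix ν ν (CM.Om l)} (hX : X ∈ lie ρ U) : W.s.em (W.s.pr X) = X := by
  induction hX using Submodule.span_induction with
  | mem x hx =>
    obtain ⟨Y, hY, rfl⟩ := hx
    exact W.em_lim hY
  | zero => rw [map_zero, map_zero]
  | add x y _ _ hx hy => rw [map_add, map_add, hx, hy]
  | smul c x _ hx => rw [map_smul, map_smul, hx]

theorem mem_g {X : Matrix ω ω (CM.Om l)} : X ∈ W.g U ↔ W.s.em X ∈ lie ρ U := Iff.rfl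

theorem pr_mem {X : Matrix ν ν (CM.Om l)} (hX : X ∈ lie ρ U) : W.s.pr X ∈ W.g U := by
  rwa [mem_g, W.em_lie hX]

theorem g_cl (U : Subgroup Γ) : Cl (W.g U) := fun X hX Y hY => by
  rw [mem_g, br, map_sub, map_mul, map_mul]
  exact lie_cl ρ U _ hX _ hY

theorem g_conj [U.Normal] (σ : Γ) {X : Matrix ω ω (CM.Om l)} (hX : X ∈ W.g U) :
    W.w σ * X * W.w σ⁻¹ ∈ W.g U := by
  rw [mem_g, map_mul, map_mul, W.eq, W.eq]
  exact lie_conj σ hX

theorem g_tng (U : Subgroup Γ) : W.g U ≤ tng (W.im U) := fun X hX => by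
  have h := tng_lin W.s.pr W.s.pr_one (T := imU ρ U) (T' := W.im U) (by
    rintro _ ⟨σ, hσ, rfl⟩
    exact ⟨σ, hσ, W.w_eq σ⟩) (lie_tng ρ U hX)
  rwa [AlgHom.toLinearMap_apply, W.s.pr_em] at h

theorem g_ir (hq : W.Sq) [U.FiniteIndex] : Ir (W.g U) := by
  intro V hV
  let S : Subalgebra (CM.Om l) (Matrix ω ω (CM.Om l)) :=
    { carrier := {A | ∀ v ∈ V, A *ᵥ v ∈ V}
      mul_mem' := fun hx hy v hv => by
        rw [← mulVec_mulVec]
        exact hx _ (hy v hv)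
      add_mem' := fun hx hy v hv => by
        rw [add_mulVec]
        exact V.add_mem (hx v hv) (hy v hv)
      algebraMap_mem' := fun c v hv => by
        rw [Algebra.algebraMap_eq_smul_one, smul_mulVec, one_mulVec]
        exact V.smul_mem _ hv }
  have h1 : ∀ X ∈ Lim ρ U, ∀ Z ∈ Algebra.adjoin ℤ_[l] {X},
      Z.map (CM.toOm l) ∈ S.map W.s.em := fun X hX Z hZ => by
    induction hZ using Algebra.adjoin_induction with
    | mem x hx =>
      obtain rfl : x = X := hx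
      exact ⟨_, hV _ (W.pr_mem (Submodule.subset_span ⟨x, hX, rfl⟩)), W.em_lim hX⟩
    | algebraMap c =>
      rw [Algebra.algebraMap_eq_smul_one, Matrix.map_smul' _ _ _ (map_mul _),
        Matrix.map_one _ (map_zero _) (map_one _)]
      exact Subalgebra.smul_mem _ (one_mem _) _
    | add x y _ _ hx hy =>
      rw [Matrix.map_add _ (map_add _)]
      exact add_mem hx hy
    | mul x y _ _ hx hy =>
      rw [Matrix.map_mul]
      exact mul_mem hx hy
  have := kerM_fin ρ 2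
  have h2 : ∀ A : Matrix ω ω (CM.Om l), A ∈ S := fun A => by
    refine (?_ : ⊤ ≤ Subalgebra.toSubmodule S) Submodule.mem_top
    rw [← hq (U ⊓ kerM ρ 2) inferInstance, Submodule.span_le]
    rintro _ ⟨σ, ⟨hU, hk⟩, rfl⟩
    obtain ⟨Z, hZ⟩ := mem_kerM.1 hk
    obtain ⟨X, hX, hZX⟩ := exists_log hU hZ
    obtain ⟨B, hB, e⟩ := h1 X hX (ρ σ : Matrix ν ν ℤ_[l])
      (hZ ▸ add_mem (one_mem _) (Subalgebra.smul_mem _ hZX _))
    have e' : B = W.w σ := W.s.em_inj (e.trans (W.eq σ).symm)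
    exact e' ▸ hB
  refine or_iff_not_imp_left.2 fun h0 => ?_
  obtain ⟨v, hv, h3⟩ := (Submodule.ne_bot_iff V).1 h0
  obtain ⟨j, hj⟩ := Function.ne_iff.1 h3
  refine eq_top_iff.2 fun w _ => ?_
  have h4 := h2 (vecMulVec w (Pi.single j (v j)⁻¹)) v hv
  rwa [vecMulVec_mulVec, single_dotProduct, inv_mul_cancel₀ hj, MulOpposite.op_one, one_smul] at h4

theorem g_sp (hg : Gsp ρ) {X : Matrix ω ω (CM.Om l)} (hX : X ∈ W.g U) :
    Sp (Matrix.J (Fin 4) (CM.Om l)) (tl X) := by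
  obtain ⟨c, hc⟩ := lie_gsp hg hX
  have h1 : Sp (J (Fin 8) (CM.Om l)) (W.s.em (X - (2⁻¹ * c) • 1)) := by
    rw [Sp, map_sub, map_smul, map_one, transpose_sub, transpose_smul, transpose_one, sub_mul,
      mul_sub, sub_add_sub_comm]
    refine sub_eq_zero.2 (hc.trans ?_)
    simp only [smul_mul_assoc, mul_smul_comm, one_mul, mul_one]
    module
  rw [W.s.sp_iff, Sp, transpose_sub, transpose_smul, transpose_one, sub_mul, mul_sub,
    sub_add_sub_comm, sub_eq_zero] at h1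
  refine sp_tl (c := c) (h1.trans ?_)
  simp only [smul_mul_assoc, mul_smul_comm, one_mul, mul_one]
  module

theorem g_irr (hg : Gsp ρ) (hq : W.Sq) [U.FiniteIndex] :
    Irr (Matrix.J (Fin 4) (CM.Om l)) ((W.g U).map tl) := by
  have e : ∀ X : Matrix ω ω (CM.Om l), tl X = X - (8 : CM.Om l)⁻¹ • X.trace • 1 := fun _ => rfl
  refine ⟨by simp, J_transpose _ _, (isUnit_det_J _ _).ne_zero, ?_, ?_, fun V hV => ?_⟩
  · rintro _ ⟨X, hX, rfl⟩ _ ⟨Y, hY, rfl⟩
    refine ⟨br X Y, W.g_cl U X hX Y hY, ?_⟩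
    rw [e, e, e, br, br, trace_sub, trace_mul_comm, sub_self]
    simp only [sub_mul, mul_sub, smul_mul_assoc, mul_smul_comm, one_mul, mul_one]
    module
  · rintro _ ⟨X, hX, rfl⟩
    exact W.g_sp hg hX
  · refine W.g_ir (U := U) hq V fun X hX v hv => ?_
    have h1 := hV _ ⟨X, hX, rfl⟩ v hv
    rw [e, sub_mulVec, smul_mulVec, smul_mulVec, one_mulVec] at h1
    exact (V.sub_mem_iff_left (V.smul_mem _ (V.smul_mem _ hv))).1 h1

theorem g_type (hg : Gsp ρ) (hq : W.Sq) [U.FiniteIndex] :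
    Full (Matrix.J (Fin 4) (CM.Om l)) (W.g U) ∨ Sym7 ((W.g U).map tl) ∨ ∃ f, Cu f (W.g U) :=
  type_of (W.g_cl U) (W.g_irr hg hq)

variable {W} {z : Mor a b ℤ_[l]} {u : Γ →* GL ω ℤ_[l]}

theorem Int.g_eq (h : W.Int z u) (U : Subgroup Γ) : W.g U = M5.lie u U := by
  refine le_antisymm (fun X hX => ?_) (Submodule.span_le.2 ?_)
  · rw [← W.s.pr_em X]
    refine (?_ : lie ρ U ≤ (M5.lie u U).comap W.s.pr) hX
    refine Submodule.span_le.2 ?_
    rintro _ ⟨Y, hY, rfl⟩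
    refine Submodule.subset_span ⟨z.pr Y, fun k => ?_, by rw [h.s, ← z.map_pr]⟩
    obtain ⟨n₀, h0⟩ := hY k
    refine ⟨n₀, fun n hn => ?_⟩
    obtain ⟨σ, hσ, Z, e⟩ := h0 n hn
    refine ⟨σ, hσ, z.pr Z, ?_⟩
    rw [← z.pr_em (u σ), ← h.eq, e, map_add, z.pr_one, map_smul, map_add, map_smul]
  · rintro _ ⟨Y, hY, rfl⟩
    refine Submodule.subset_span ⟨z.em Y, fun k => ?_, by
      rw [h.s, AlgHom.toLinearMap_apply, ← z.map_em]⟩
    obtain ⟨n₀, h0⟩ := hY k
    refine ⟨n₀, fun n hn => ?_⟩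
    obtain ⟨σ, hσ, Z, e⟩ := h0 n hn
    refine ⟨σ, hσ, z.em Z, ?_⟩
    rw [h.eq, e, map_add, map_one, map_smul, map_add, map_smul]

end Lw

end M8
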