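import Pool.Agent.Lib.MP_33b3f9_ag.M8.W.Weil
import Pool.Agent.Lib.MP_33b3f9_ag.M8.W.AReg
import Pool.Agent.Lib.MP_33b3f9_ag.M5.BConn

/-!
Regular Frobenius elements; the type does not depend on the prime.
-/

set_option autoImplicit false

noncomputable section

namespace M8

open Matrix Polynomial NumberField M4 M4.CM M5 Pool.Agent.M4.Mx Pool.Agent.Lib.MP_33b3f9_ag

variable {a b : MZ} {τ : Mat} {K : IntermediateField ℚ ℂ} {r : Rep K} {W : WS a b r}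

theorem dq_int {p : ℕ} {σ : ℂ ≃ₐ[K] ℂ} {P : ℤ[X]} (h : Wei W p σ P) (m : ℕ) :
    ∃ D : ℤ, ∀ (l : ℕ) [Fact l.Prime], l ≠ p → Dq ((W l).w σ ^ m) = D := by
  obtain ⟨c, hc⟩ := pow_sums P h.base.monic
  refine ⟨(Matrix.of fun i j : Fin 8 => c (m * (2 * ((i : ℕ) + (j : ℕ))))).det, fun l _ hl => ?_⟩
  rw [Int.cast_det, Dq]
  congr 1
  ext i j
  rw [Matrix.map_apply, Matrix.of_apply, Matrix.of_apply, ← pow_mul, hc _ _ (h.char l hl)]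

theorem frob_near (H : Hyp τ W) {l : ℕ} [Fact l.Prime] {σ₀ : ℂ ≃ₐ[K] ℂ}
    (h0 : Dq ((W l).w σ₀) ≠ 0) {N : ℕ} (hN : N ≠ 0) (p₁ : ℕ) :
    ∃ (p : ℕ) (_ : Fact p.Prime) (e : ℂ ≃+* PadicAlgCl p) (σ : ℂ ≃ₐ[K] ℂ) (j : ℕ) (P : ℤ[X]),
      p₁ < p ∧ l < p ∧ Frob τ r e σ ∧ Wei W p σ P ∧ Eqm r N σ₀ (σ ^ j) ∧
        Dq ((W l).w σ ^ j) ≠ 0 := by
  have := H.fin
  have hl : l.Prime := Fact.out
  obtain ⟨n, hn⟩ := near_Dq (W l) h0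
  obtain ⟨p, ⟨hp, _, e, σ, j, -, h1, h2⟩, -⟩ := (frob_gen H.red H.opn σ₀
    (mul_ne_zero hN (pow_ne_zero n hl.ne_zero)) (p₁ + l)).exists_ge 0
  obtain ⟨h3, h5⟩ := hn σ j (h2.mono (dvd_mul_left _ _))
  obtain ⟨P, h4, -⟩ := weil_of_Dq (W := W) h1 (l := l) (by omega)
    (norm_pos_iff.1 ((norm_pos_iff.2 h0).trans_le h5))
  exact ⟨p, ‹_›, e, σ, j, P, by omega, by omega, h1, h4, h2.mono (dvd_mul_right _ _), h3⟩

theorem frob_reg (H : Hyp τ W) {l : ℕ} [Fact l.Prime] {σ₀ : ℂ ≃ₐ[K] ℂ}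
    (hn : Neat (ro r l σ₀)) (h0 : Dq ((W l).w σ₀) ≠ 0) {N : ℕ} (hN : N ≠ 0) (p₁ : ℕ) :
    ∃ (p : ℕ) (_ : Fact p.Prime) (e : ℂ ≃+* PadicAlgCl p) (σ : ℂ ≃ₐ[K] ℂ) (j : ℕ) (P : ℤ[X]),
      p₁ < p ∧ Frob τ r e σ ∧ Wei W p σ P ∧ Eqm r N σ₀ (σ ^ j) ∧
        ∀ (l' : ℕ) [Fact l'.Prime], l' ≠ p → Reg ((W l').w σ) := by
  have hl : l.Prime := Fact.out
  obtain ⟨p, _, e, σ, j, P, h1, h2, h3, h4, h5, h6⟩ := frob_near H h0
    (mul_ne_zero hN (pow_ne_zero 2 hl.ne_zero)) p₁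
  have h7 : Le (ro r l σ₀ - ro r l (σ ^ j)) ((l : ℝ) ^ (-2 : ℤ)) := fun x y => by
    obtain ⟨c, hc⟩ := h5 l x y
    rw [ro_eq, ro_eq, Matrix.sub_apply, Matrix.map_apply, Matrix.map_apply, ← map_sub, hc,
      map_mul, map_natCast, norm_mul, norm_toOm, _root_.zpow_neg, zpow_ofNat, ← inv_pow]
    exact (mul_le_of_le_one_right (norm_nonneg _) c.norm_le_one).trans (bfrob_norm N 2)
  have h8 : Neat ((W l).s.em ((W l).w σ ^ j)) := by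
    have h9 := Le.sub hn h7
    rwa [sub_sub_sub_cancel_left, ← rO_eq, ← (W l).eq, map_pow (W l).w] at h9
  refine ⟨p, ‹_›, e, σ, j, P, h1, h3, h4, h5.mono (dvd_mul_right _ _), fun l' _ hl' m hm => ?_⟩
  obtain ⟨D, hD⟩ := dq_int h4 m
  have h9 := (W l).s.reg' h8 h6 m hm
  rw [← pow_mul, mul_comm, pow_mul, ← map_pow] at h9
  have h10 := (norm_pos_iff.2 h9).trans_le ((W l).Dq_pow _ j)
  rw [map_pow, hD l h2.ne, norm_pos_iff, Int.cast_ne_zero] at h10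
  rwa [hD l' hl', Int.cast_ne_zero]

theorem Frob.mult_w {p : ℕ} [Fact p.Prime] {e : ℂ ≃+* PadicAlgCl p} {σ : ℂ ≃ₐ[K] ℂ}
    (hF : Frob τ r e σ) {l : ℕ} [Fact l.Prime] (W : Lw a b (r l)) (hl : l ≠ p) :
    (W.w σ)ᵀ * J (Fin 4) (CM.Om l) * W.w σ = (p : CM.Om l) • J (Fin 4) (CM.Om l) := by
  have h2 := congrArg (fun A => A.map (algebraMap ℚ_[l] (CM.Om l))) (hF.mult l hl)
  simp only [Matrix.map_mul, Matrix.map_J, Matrix.transpose_map] at h2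
  rw [W.sim_iff, rO_eq, ro, h2, Matrix.map_smul' _ _ _ (map_mul _), map_natCast, Matrix.map_J]

theorem sim_pow {R : Type} [CommRing R] {g : Matrix ω ω R} {c : R}
    (h : gᵀ * J (Fin 4) R * g = c • J (Fin 4) R) (j : ℕ) :
    (g ^ j)ᵀ * J (Fin 4) R * g ^ j = c ^ j • J (Fin 4) R := by
  induction j with
  | zero => simp
  | succ j ih =>
    rw [pow_succ, transpose_mul, Matrix.mul_assoc, Matrix.mul_assoc, ← Matrix.mul_assoc _ _ g,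
      ← Matrix.mul_assoc _ _ g, ← Matrix.mul_assoc _ _ (g ^ j), ih,
      Matrix.smul_mul, Matrix.mul_smul, ← Matrix.mul_assoc, h, smul_smul, pow_succ]

variable {l₀ : ℕ} [Fact l₀.Prime] {f₀ : Fr ω (CM.Om l₀)}

theorem ph_zero (H : Hyp τ W) (B : Base W l₀ f₀) (l : ℕ) [Fact l.Prime] {σ₀ : ℂ ≃ₐ[K] ℂ}
    (h0 : Dq ((W l).w σ₀) ≠ 0) : Ph ((W l).w σ₀) = 0 := by
  have hl : l.Prime := Fact.out
  by_contra h
  obtain ⟨n, hn⟩ := near_eqm (W l) cont_Ph σ₀ (norm_pos_iff.2 h)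
  obtain ⟨p, hp, e, σ, j, P, hp1, hp2, hF, hW, hE, hD⟩ :=
    frob_near H h0 (pow_ne_zero n hl.ne_zero) l₀
  obtain ⟨c, hc⟩ := pow_sums P hW.base.monic
  obtain ⟨z, hz⟩ : ∃ z : ℤ, ∀ (l' : ℕ) [Fact l'.Prime], l' ≠ p → Ph ((W l').w σ ^ j) = z :=
    ⟨2 * (c j ^ 3 + 2 * c (j * 3) - 6 * p ^ j * c j) ^ 2 -
      (c j ^ 3 + 3 * c j * c (j * 2) - 4 * c (j * 3)) ^ 2 - 18 * c j ^ 2 * c (j * 4),
      fun l' _ h => by
        have h1 := hc _ _ (hW.char l' h)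
        rw [Ph, bpha_mu (sim_pow (hF.mult_w (W l') h) j), ← pow_mul, ← pow_mul, ← pow_mul, h1, h1,
          h1, h1]
        push_cast
        rfl⟩
  obtain ⟨D, hD'⟩ := dq_int hW j
  rw [hD' l hp2.ne] at hD
  have h2 : Dq ((W l₀).w σ ^ j) ≠ 0 := by
    rw [hD' l₀ hp1.ne]
    exact Int.cast_ne_zero.2 (Int.cast_ne_zero.1 hD)
  have h3 := sim_pow (hF.mult_w (W l₀) hp1.ne) j
  have h4 := hz l₀ hp1.ne
  obtain ⟨x, hx⟩ := B.inC (σ ^ j)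
  rw [← map_pow, hx] at h2 h3 h4
  rw [ph_cube f₀ x ((cube_det f₀ x (pow_ne_zero _ (Nat.cast_ne_zero.2 hp.out.ne_zero)) h3
    ((Dq_ne_iff _).1 h2)).trans (bpha_mu h3).symm)] at h4
  have h5 := hn _ hE
  rw [map_pow, hz l hp2.ne, Int.cast_eq_zero.1 h4.symm, Int.cast_zero, zero_sub, norm_neg] at h5
  exact lt_irrefl _ h5

theorem not_full (H : Hyp τ W) (B : Base W l₀ f₀) (l : ℕ) [Fact l.Prime]
    (U : Subgroup (ℂ ≃ₐ[K] ℂ)) : ¬ Full (Matrix.J (Fin 4) (CM.Om l)) ((W l).g U) := by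
  intro h
  obtain ⟨P, hP⟩ := bph_eval (Ω := CM.Om l)
  let φ : ℚ →+* CM.Om l := Rat.castHom _
  have hJ : (Matrix.J (Fin 4) ℚ).map φ = Matrix.J (Fin 4) (CM.Om l) := Matrix.map_J _ φ
  have hg : ((diagonal bphV).map φ)ᵀ * Matrix.J (Fin 4) (CM.Om l) * (diagonal bphV).map φ =
      Matrix.J (Fin 4) (CM.Om l) := by
    rw [← hJ, ← transpose_map, ← Matrix.map_mul, ← Matrix.map_mul, bph_sp]
  have h1 := full_mcl ((W l).im U) (fun u => (W l).g_tng U (h u)) hg P (by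
    rintro _ ⟨σ, -, rfl⟩
    rw [hP]
    by_cases h0 : Dq ((W l).w σ) = 0
    · exact mul_eq_zero_of_left h0 _
    · exact mul_eq_zero_of_right _ (ph_zero H B l h0))
  rw [hP, Ph_map] at h1
  refine mul_ne_zero ?_ ((_root_.map_ne_zero φ).2 bph_ph) h1
  rw [Dq_ne_iff, diagonal_map (map_zero φ), charpoly_diagonal, sp2_iff]
  intro i j hij
  refine bph_inj (φ.injective ?_)
  simpa only [map_pow] using hij

theorem not_sym7 (H : Hyp τ W) (l : ℕ) [Fact l.Prime] (U : Subgroup (ℂ ≃ₐ[K] ℂ)) [U.Normal] :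
    ¬ Sym7 (((W l).g U).map tl) := by
  intro hs
  obtain ⟨σ₀, -, h1, h2⟩ := (W l).exists_reg hs.2.2
  obtain ⟨p, _, e, σ, j, P, h3, -, hW, -, h4⟩ := frob_reg H h1
    (pow_one ((W l).w σ₀) ▸ h2 1 one_ne_zero) one_ne_zero (max 64 l)
  rw [max_lt_iff] at h3
  have h5 : (W l).w σ * (W l).w σ⁻¹ = 1 := by rw [← map_mul, mul_inv_cancel, map_one]
  obtain ⟨β, u, h6, h7⟩ := gp h5 hs (by
    rintro _ ⟨x, hx, rfl⟩
    exact ⟨_, (W l).g_conj σ hx, tl_conj h5 x⟩) (h4 l h3.2.ne)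
  exact no_gp Fact.out h3.1 hW.base.weil h6 ((hW.char l h3.2.ne).symm.trans h7)

theorem Lw.pm_all {Γ : Type} [Group Γ] {l : ℕ} [Fact l.Prime] {ρ : Γ →* GL ν ℤ_[l]}
    (W : Lw a b ρ) {U : Subgroup Γ} [U.Normal] {f : Fr ω (CM.Om l)} (h : Cu f (W.g U)) :
    ∃ χ : Γ →* Equiv.Perm (Fin 3), (∀ σ, Pm f (W.w σ) (χ σ)) ∧ ∃ n, kerM ρ n ≤ χ.ker := by
  obtain ⟨χ, hχ⟩ := exists_char (f := f) W.w fun σ =>
    exists_pm (W.w.toHomUnits σ) fun X hX => h.2 (W.g_conj σ (h.1 hX))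
  obtain ⟨n, hn⟩ := pm_near f
  obtain ⟨m, hm⟩ := W.kerM_le n
  exact ⟨χ, hχ, m, fun σ hσ => hn _ _ (hm σ hσ) (hχ σ)⟩

theorem cube_type (H : Hyp τ W) (B : Base W l₀ f₀) (l : ℕ) [Fact l.Prime]
    (U : Subgroup (ℂ ≃ₐ[K] ℂ)) [U.Normal] [U.FiniteIndex] : ∃ f, Cu f ((W l).g U) :=
  (((W l).g_type (H.gsp l) (H.sq l)).resolve_left (not_full H B l U)).resolve_left (not_sym7 H l U)

theorem dens (H : Hyp τ W) (B : Base W l₀ f₀) (U : Subgroup (ℂ ≃ₐ[K] ℂ)) [U.Normal]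
    [U.FiniteIndex] (σ₀ : ℂ ≃ₐ[K] ℂ) : ∃ u ∈ U, Dq ((W l₀).w (σ₀ * u)) ≠ 0 := by
  obtain ⟨f, hf⟩ := cube_type H B l₀ U
  have h1 : f.sl ≤ tng ((W l₀).im U) := hf.1.trans ((W l₀).g_tng U)
  obtain ⟨π, c, hc⟩ := cmp f₀ f fun Y hY => f₀.tng_m (fun t ht => by
    obtain ⟨σ, -, rfl⟩ := ht
    obtain ⟨x, hx⟩ := B.inC σ
    rw [hx, f₀.QTP]
    exact rk_tp x) (h1 hY)
  have h2 : ∀ s (y : M2 (CM.Om l₀)), y.trace = 0 → f₀.u s y ∈ tng ((W l₀).im U) := fun s y hy => by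
    obtain ⟨i, rfl⟩ := π.surjective s
    have e : cj (c i) (cj (c i)⁻¹ y) = y := by simp [cj, Matrix.mul_assoc]
    have e' : (cj (c i)⁻¹ y).trace = 0 := by
      rw [cj, trace_mul_cycle, Units.inv_mul, Matrix.one_mul, hy]
    rw [← e, ← hc]
    rw [trace_fin_two] at e'
    exact h1 (MxSl_tr f i _ (eq_neg_of_add_eq_zero_right e'))
  obtain ⟨a₀, ha₀⟩ := B.inC σ₀
  have hd := (W l₀).det_ne σ₀
  obtain ⟨z, y, hy, e⟩ := f₀.T_split a₀ (ha₀ ▸ hd)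
  rw [← ha₀] at e
  obtain ⟨x, hx, hq⟩ := bconn_gen f₀ (c := z) fun h => hd (by rw [e, h, zero_smul, det_zero])
  have h3 := f₀.sl_mcl _ (fun s => ⟨h2 s _ (by simp [bas]), h2 s _ (by simp [bas])⟩)
    ((fun s => (y s).adjugate) * x) fun s => by
      rw [Pi.mul_apply, det_mul, det_adjugate, hy, hx, one_pow, mul_one]
  obtain ⟨Q, hQ⟩ := zarA_two ((W l₀).w σ₀) 1 (Dq (Matrix.of fun i j => MvPolynomial.X (i, j)))
  have h4 : ∀ x, evalM x Q = Dq ((W l₀).w σ₀ * x) := fun x => by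
    rw [hQ, Matrix.mul_one]
    refine (Dq_map (MvPolynomial.aeval (R := CM.Om l₀)
      fun p : ω × ω => ((W l₀).w σ₀ * x) p.1 p.2).toRingHom _).symm.trans ?_
    congr 1
    ext i j
    simp
  by_contra hn
  push Not at hn
  have h5 := h3 Q fun t ⟨u, hu, ht⟩ => by
    rw [h4, ← hn u hu, map_mul, ht]
  have h6 : y * ((fun s => (y s).adjugate) * x) = x := funext fun s => by
    rw [Pi.mul_apply, Pi.mul_apply, ← Matrix.mul_assoc, mul_adjugate, hy, one_smul, Matrix.one_mul]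
  rw [h4, e, Matrix.smul_mul, f₀.T_mul, h6] at h5
  exact hq h5

theorem conn (H : Hyp τ W) (B : Base W l₀ f₀) (l : ℕ) [Fact l.Prime] :
    ∃ f, Cu f ((W l).g ⊤) ∧ ∀ σ, ∃ x, (W l).w σ = f.T x := by
  obtain ⟨f, hf⟩ := cube_type H B l ⊤
  obtain ⟨χ, hχ, n, hn⟩ := (W l).pm_all hf
  refine ⟨f, hf, fun σ₀ => Pm.inC (g := (W l).w σ₀) ((?_ : χ σ₀ = 1) ▸ hχ σ₀)⟩
  obtain ⟨u, hu, h0⟩ := dens H B χ.ker σ₀
  obtain ⟨p, _, -, σ, j, -, hp, -, -, he, hr⟩ :=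
    frob_reg H (B.neat _) h0 (pow_ne_zero n (Fact.out : l.Prime).ne_zero) l
  have h1 : χ (σ₀ * u) = χ (σ ^ j) := χ.eq_iff.2 (hn ((MonoidHom.eq_iff _).1 (Units.ext
    (Matrix.ext fun x y => by
      change PadicInt.toZModPow n _ = PadicInt.toZModPow n _
      rw [← RingHom.sub_mem_ker_iff, PadicInt.ker_toZModPow, Ideal.mem_span_singleton]
      exact_mod_cast he l x y))))
  by_cases h2 : χ σ = 1
  · rwa [map_mul, hu, mul_one, map_pow, h2, one_pow] at h1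
  · exact absurd (Pm.dq ((W l).det_ne σ) (hχ σ) h2) (hr l hp.ne 6 (by norm_num))

end M8
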