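import Pool.Agent.Lib.MP_33b3f9_ag.M8.W.ANear
import Pool.Agent.Lib.MP_33b3f9_ag.M8.CBOpen
import Pool.Agent.Lib.MP_33b3f9_ag.M8.MorA

/-!
Faces; elementary properties of the representations.
-/

set_option autoImplicit false

noncomputable section

namespace M8

open Matrix Polynomial NumberField M4 M4.CM M5 Pool.Agent.M4.Mx

variable {a b : MZ} {l : ℕ} [Fact l.Prime]

/-- `g` kills modulo `l` the face of slot `i` on which `Zm (h i)` has the eigenvalue `w`. -/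
def Kil (z : Mor a b (CM.Om l)) (f : Fr ω (CM.Om l)) (h : Fin 3 → M2 (CM.Om l)) (g : MZ)
    (i : Fin 3) (w : CM.Om l) : Prop :=
  Le (zM (CM.Om l) g * z.em (f.u i (Ej (h i) w))) (l : ℝ)⁻¹

/-- The kernel of `g` modulo `l` is the face that belongs to the place of `x`. -/
def Fc {F : Type} [Field F] (t : F) (k : 𝓞 F) (z : Mor a b (CM.Om l)) (f : Fr ω (CM.Om l))
    (h : Fin 3 → M2 (CM.Om l)) (ι : Fin 3 ≃ (F →+* CM.Om l)) (g : MZ) (x : Pl F) : Prop :=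
  l ∣ x.M → Unt t k l ∧ ∃ (i : Fin 3) (w : CM.Om l), w ^ 2 * ι i t = ι i t - 4 ∧
    Kil z f h g i w ∧ x.ι l = ι i ∧ x.ϖ l = ι i k * w

variable {K : IntermediateField ℚ ℂ} (r : Rep K)

theorem ro_eq (σ : ℂ ≃ₐ[K] ℂ) : ro r l σ = (r l σ : Matrix ν ν ℤ_[l]).map (CM.toOm l) :=
  rfl

theorem ro_pow (σ : ℂ ≃ₐ[K] ℂ) (j : ℕ) : ro r l (σ ^ j) = ro r l σ ^ j :=
  map_pow (rO (r l)) σ j

theorem Iso.det_sq {g : MZ} {M : ℕ} (h : Iso g M) : g.det ^ 2 = (M : ℤ) ^ 16 := by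
  have h1 := (M4.Kz.simR_iff g (M : ℤ)).1
    (M4.Kz.simR_of_sim (by rw [Int.cast_natCast]; exact h.2.2))
  have h2 := congrArg det h1
  rw [det_mul, det_mul, det_transpose, det_smul] at h2
  have h3 : (J (Fin 8) ℤ).det ≠ 0 := (isUnit_det_J (Fin 8) ℤ).ne_zero
  refine mul_right_cancel₀ h3 ?_
  rw [Fintype.card_sum, Fintype.card_fin] at h2
  rw [← h2]
  ring

theorem Iso.norm_det {g : MZ} {M : ℕ} (h : Iso g M) :
    ‖(zM (CM.Om l) g).det‖ = ‖(M : CM.Om l)‖ ^ 8 := by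
  have h1 : (zM (CM.Om l) g).det = (g.det : CM.Om l) := (Int.cast_det g).symm
  have h2 := congrArg (fun n : ℤ => ‖(n : CM.Om l)‖) (Iso.det_sq h)
  simp only [Int.cast_pow, norm_pow, Int.cast_natCast] at h2
  rw [h1, ← pow_left_inj₀ (norm_nonneg _) (by positivity) two_ne_zero, h2, ← pow_mul]

theorem opn {τ : Mat} {r : Rep K} (h : AV τ K r) : Opn r := by
  intro N hN
  obtain ⟨K₁, h1, h2⟩ := CB.open_mod h hN
  refine ⟨K₁, h1, fun σ hσ l _ i j => ?_⟩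
  simpa [Matrix.one_apply] using h2 σ hσ l i j

end M8
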