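import Pool.Agent.Lib.MP_33b3f9_ag.M8.W.CDefs
import Pool.Agent.Lib.MP_33b3f9_ag.M4.CmSplit

/-!
Stable faces at split primes.
-/

set_option autoImplicit false

noncomputable section

namespace M8

open Matrix Polynomial NumberField M4 M4.CM M5 Pool.Agent.M4.Mx
open scoped Kronecker

variable {a b : MZ} {τ : Mat} {K : IntermediateField ℚ ℂ} {r : Rep K}

section ring

variable {R : Type} [CommRing R] (s : Mor a b R)

/-- The two components of a vector. -/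
def Mor.col (x : ν → R) (c : Fin 2) : ω → R := fun j => (s.S' *ᵥ x) (j, c)

theorem cface_kron {m : Type} (y : Matrix m ω R) (v : ω × Fin 2 → R) (k : m) (c : Fin 2) :
    ((y ⊗ₖ (1 : M2 R)) *ᵥ v) (k, c) = (y *ᵥ fun j => v (j, c)) k := by
  simp [mulVec, dotProduct, Fintype.sum_prod_type, one_apply]

theorem col_em (y : Matrix ω ω R) (x : ν → R) (c : Fin 2) :
    s.col (s.em y *ᵥ x) c = y *ᵥ s.col x c := by
  funext j
  rw [Mor.col, mulVec_mulVec, s.em_apply, ← Matrix.mul_assoc, ← Matrix.mul_assoc, s.inv',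
    Matrix.one_mul, ← mulVec_mulVec, cface_kron]
  rfl

theorem col_cQ (f : Fr ω R) (x : ν → R) (k : κ) (c : Fin 2) :
    (s.cQ f *ᵥ x) (k, c) = (f.Q *ᵥ s.col x c) k := by
  rw [Mor.cQ, ← mulVec_mulVec, cface_kron]
  rfl

theorem col_surj (v : ω → R) : ∃ x, ∀ c, s.col x c = v :=
  ⟨s.S *ᵥ fun p => v p.1, fun c => funext fun j => by
    rw [Mor.col, mulVec_mulVec, s.inv', one_mulVec]⟩

theorem cface_map (f : Fr ω R) {R' : Type} [CommRing R'] (φ : R →+* R') :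
    (s.cQ f).map φ = (s.map φ).cQ (f.map φ) := by
  ext i j
  simp [Mor.cQ, Mor.map, Fr.map, Matrix.mul_apply, one_apply, apply_ite φ]

theorem cface_u (f : Fr ω R) {R' : Type} [CommRing R'] (φ : R →+* R') (i : Fin 3) (y : M2 R) :
    (f.u i y).map φ = (f.map φ).u i (y.map φ) := by
  rw [Fr.u_apply, Fr.u_apply, Fr.map_T]
  congr 1
  funext t
  by_cases ht : t = i
  · subst ht
    simp
  · simp [Function.update_of_ne ht]

end ring

variable {l : ℕ} [Fact l.Prime]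

theorem Cong.rb_eq {σ : ℂ ≃ₐ[K] ℂ} {R : MZ} (h : Cong r σ l R) : rb r l σ = zM (ZMod l) R := by
  ext i j
  obtain ⟨c, hc⟩ := h l i j
  have h1 := congrArg (PadicInt.toZMod (p := l)) hc
  rw [map_sub, map_mul, map_natCast, ZMod.natCast_self, zero_mul, map_intCast, sub_eq_zero] at h1
  exact h1

theorem cface_cast (R : MZ) (x : ν → ℤ) : (fun j => ((R *ᵥ x) j : ZMod l)) =
    zM (ZMod l) R *ᵥ fun j => (x j : ZMod l) := by
  funext j
  simp only [mulVec, dotProduct, map_apply, Int.cast_sum, Int.cast_mul]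

theorem cface_lift (c : ν → ZMod l) : ∃ x : ν → ℤ, (fun j => (x j : ZMod l)) = c := by
  choose x hx using fun j => ZMod.intCast_surjective (c j)
  exact ⟨x, funext hx⟩

theorem mem_slot (s : Mor a b (ZMod l)) (f : Fr ω (ZMod l)) (i : Fin 3) (w : Fin 2 → ZMod l)
    (x : ν → ℤ) : x ∈ slot (s.cQ f) i w ↔ ∀ c, InS f.Q i w (s.col (fun j => (x j : ZMod l)) c) := by
  change (∀ (k : κ) (c : Fin 2), ∑ t, w t * (s.cQ f *ᵥ _) (Function.update k i t, c) = 0) ↔ _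
  simp only [col_cQ]
  exact forall_comm

theorem stab_iff (σ : ℂ ≃ₐ[K] ℂ) (s : Mor a b (ZMod l)) (f : Fr ω (ZMod l)) (i : Fin 3)
    (w : Fin 2 → ZMod l) : Stab r σ l (slot (s.cQ f) i w) ↔
      ∀ x, (∀ c, InS f.Q i w (s.col x c)) → ∀ c, InS f.Q i w (s.col (rb r l σ *ᵥ x) c) := by
  constructor
  · intro h c hc
    obtain ⟨x, rfl⟩ := cface_lift c
    obtain ⟨R, hR⟩ := CB.exists_cong r σ (Fact.out : l.Prime).ne_zero
    rw [Cong.rb_eq hR, ← cface_cast, ← mem_slot]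
    exact h R hR x ((mem_slot ..).2 hc)
  · intro h R hR x hx
    rw [mem_slot, cface_cast, ← Cong.rb_eq hR]
    exact h _ ((mem_slot ..).1 hx)

theorem rb_pow (σ : ℂ ≃ₐ[K] ℂ) (j : ℕ) : rb r l (σ ^ j) = rb r l σ ^ j := by
  rw [rb, rb, map_pow, Units.val_pow_eq_pow_val]
  exact map_pow (PadicInt.toZMod (p := l)).mapMatrix _ j

theorem rb_of_dec {p : ℕ} [Fact p.Prime] {e : ℂ ≃+* PadicAlgCl p} {σ σ' : ℂ ≃ₐ[K] ℂ}
    (h : Frob τ r e σ) (hl : l ≠ p) (h' : NT.Dec e σ') : ∃ j : ℕ, rb r l σ' = rb r l σ ^ j := by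
  obtain ⟨j, hj⟩ := h.unram σ' h' l fun hd =>
    hl ((Nat.prime_dvd_prime_iff_eq Fact.out Fact.out).1 hd).symm
  obtain ⟨R, hR⟩ := CB.exists_cong r (σ ^ j) (Fact.out : l.Prime).ne_zero
  exact ⟨j, by rw [← rb_pow, Cong.rb_eq hR, Cong.rb_eq (hj R hR)]⟩

theorem kil_of_ker (z : Mor a b ℤ_[l]) (fz : Fr ω ℤ_[l]) (i : Fin 3) {w : Fin 2 → ZMod l} {g : MZ}
    (hk : Ker g l = slot ((z.map PadicInt.toZMod).cQ (fz.map PadicInt.toZMod)) i w) {y : M2 ℤ_[l]}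
    (hy : w ᵥ* y.map PadicInt.toZMod = 0) :
    Le (zM (CM.Om l) g * (z.map (CM.toOm l)).em ((fz.map (CM.toOm l)).u i (y.map (CM.toOm l))))
      (l : ℝ)⁻¹ := by
  have hmap : ∀ {S : Type} [CommRing S] (φ : ℤ_[l] →+* S),
      (zM ℤ_[l] g * z.em (fz.u i y)).map φ =
        zM S g * (z.map φ).em ((fz.map φ).u i (y.map φ)) := by
    intro S _ φ
    rw [Matrix.map_mul, zM_map, z.map_em, cface_u]
  rw [← hmap]
  intro p q
  refine le_inv_of_lt (toOm_mem _) ((toZMod_eq_zero_iff _).1 ?_)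
  obtain ⟨x, hx⟩ := cface_lift ((z.map PadicInt.toZMod).em
    ((fz.map PadicInt.toZMod).u i (y.map PadicInt.toZMod)) *ᵥ Pi.single q 1)
  have h1 : x ∈ Ker g l := by
    have h0 : (of fun (_ : Fin 2) t => w t) * y.map PadicInt.toZMod = 0 := by
      rw [cmface_row, hy]
      rfl
    rw [hk, mem_slot, hx]
    intro c
    rw [col_em, cmface_inS, mulVec_mulVec, mulVec_mulVec, Matrix.mul_assoc, Fr.u_apply, cmface_QT,
      ← Matrix.mul_assoc, cmface_left, Function.update_idem, Function.update_self, h0,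
      cmface_tp_zero, Matrix.zero_mul, zero_mulVec]
  have h2 := congrFun (cface_cast (l := l) g x) p
  rw [hx, mulVec_mulVec, ← hmap, mulVec_single_one,
    (ZMod.intCast_zmod_eq_zero_iff_dvd _ l).2 (h1 p)] at h2
  exact h2.symm

theorem cface_rb {σ : ℂ ≃ₐ[K] ℂ} {z : Mor a b ℤ_[l]} {fz : Fr ω ℤ_[l]} {hz : Fin 3 → M2 ℤ_[l]}
    (hA : (r l σ : Matrix ν ν ℤ_[l]) = z.em (fz.T hz)) : rb r l σ = (z.map PadicInt.toZMod).em
      ((fz.map PadicInt.toZMod).T fun i => (hz i).map PadicInt.toZMod) := by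
  rw [rb, hA, z.map_em, Fr.map_T]

variable {F : Type} [Field F] [NumberField F] {p : ℕ} {P : ℤ[X]} {t : F} {s Δ : ℤ}
  {ι : Fin 3 ≃ (F →+* CM.Om l)}

theorem exists_slot [Fact p.Prime] {e : ℂ ≃+* PadicAlgCl p} {σ : ℂ ≃ₐ[K] ℂ} {fz : Fr ω ℤ_[l]}
    {hz : Fin 3 → M2 ℤ_[l]} (hσ : Frob τ r e σ) (G : Glob p P t s)
    (L : Loc t s (fz.map (CM.toOm l)) (fun i => (hz i).map (CM.toOm l)) ι) (z : Mor a b ℤ_[l])
    (hA : (r l σ : Matrix ν ν ℤ_[l]) = z.em (fz.T hz))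
    (hΔ : (Δ : ℚ) = (p : ℚ) ^ 2 * Algebra.norm ℚ (t * (t - 4))) (hl : l ≠ p) (h2 : l ≠ 2)
    (hj : jacobiSym Δ l = 1) : ∃ f w, w ≠ 0 ∧ ∀ σ' : ℂ ≃ₐ[K] ℂ, NT.Dec e σ' →
      Stab r σ' l (slot ((z.cQ fz).map PadicInt.toZMod) f w) := by
  obtain ⟨i, hi⟩ := sq_of_jac G L hΔ hl hj
  obtain ⟨w, hw, h⟩ := exists_stable h2 (fz.map PadicInt.toZMod)
    (fun i => (hz i).map PadicInt.toZMod) i (by
      simpa only [cmsplit_tr, cmsplit_det, map_sub, map_pow, map_mul, map_ofNat] using hi)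
  refine ⟨i, w, hw, fun σ' h' => ?_⟩
  obtain ⟨j, hj'⟩ := rb_of_dec hσ hl h'
  rw [cface_map, stab_iff, hj', cface_rb hA]
  clear hj'
  induction j with
  | zero => intro x hx; simpa using hx
  | succ j ih =>
    intro x hx c
    rw [pow_succ', ← mulVec_mulVec, col_em]
    exact h _ (ih x hx c)

omit [NumberField F] in
theorem exists_face {σ : ℂ ≃ₐ[K] ℂ} {fz : Fr ω ℤ_[l]} {hz : Fin 3 → M2 ℤ_[l]}
    (L : Loc t s (fz.map (CM.toOm l)) (fun i => (hz i).map (CM.toOm l)) ι) (z : Mor a b ℤ_[l])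
    (hA : (r l σ : Matrix ν ν ℤ_[l]) = z.em (fz.T hz)) {k : 𝓞 F}
    (hu : Unt t k l) {g : MZ} {i : Fin 3} {w : Fin 2 → ZMod l} (hw : w ≠ 0)
    (hk : Ker g l = slot ((z.cQ fz).map PadicInt.toZMod) i w) (hs : Stab r σ l (Ker g l)) :
    ∃ y : CM.Om l, y ∈ NT.Qp l ∧ ‖y‖ = 1 ∧ y ^ 2 * ι i t = ι i t - 4 ∧
      Kil (z.map (CM.toOm l)) (fz.map (CM.toOm l)) (fun i => (hz i).map (CM.toOm l)) g i y := by
  rw [cface_map] at hk
  rw [hk, stab_iff, cface_rb hA] at hs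
  obtain ⟨c, hc⟩ := eigen_of_stable (fz.map PadicInt.toZMod) (fun i => (hz i).map PadicInt.toZMod)
    (fun j => (cmsplit_loc L j).2.2) i hw fun v hv => by
      obtain ⟨x, hx⟩ := col_surj (z.map PadicInt.toZMod) v
      have h := hs x (fun c => by rwa [hx]) 0
      rwa [col_em, hx] at h
  obtain ⟨h1, h2, -⟩ := cmsplit_loc L i
  obtain ⟨h3, h4, -⟩ := hu.2 (ι i)
  have h5 : ‖(hz i).trace‖ = 1 := by
    have := congrArg norm h1
    rw [norm_pow, norm_mul, h2, h3, mul_one, norm_toOm] at this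
    exact (pow_eq_one_iff_of_nonneg (norm_nonneg _) two_ne_zero).1 this
  have h6 : CM.toOm l ((hz i).trace ^ 2 - 4 * (hz i).det) = (ι i t - 4) * CM.toOm l (hz i).det := by
    rw [map_sub, map_pow, map_mul, map_ofNat, h1]
    ring
  have h7 : ‖(hz i).trace ^ 2 - 4 * (hz i).det‖ = 1 := by
    rw [← norm_toOm, h6, norm_mul, h4, h2, mul_one]
  obtain ⟨v, y, e1, e2, e3⟩ := exists_proj hu.1 (hz i) h5 h7 hw hc
  have h8 : CM.toOm l v ^ 2 * ι i t = ι i t - 4 := by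
    have := congrArg (CM.toOm l) e1
    rw [h6, map_mul, map_pow, map_pow, h1, ← mul_assoc] at this
    exact mul_right_cancel₀ (norm_ne_zero_iff.1 (h2.trans_ne one_ne_zero)) this
  refine ⟨CM.toOm l v, toOm_mem v, ?_, h8, ?_⟩
  · have := congrArg norm h8
    rw [norm_mul, norm_pow, h3, h4, mul_one] at this
    exact (pow_eq_one_iff_of_nonneg (norm_nonneg _) two_ne_zero).1 this
  · have := kil_of_ker z fz i hk e3
    rwa [e2] at this

end M8
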