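import Pool.Agent.Lib.MP_33b3f9_ag.M8.W.CDefs
import Pool.Agent.Lib.MP_33b3f9_ag.M4.CmLocal

/-!
The local conditions.
-/

set_option autoImplicit false

noncomputable section

namespace M8

open Matrix Polynomial NumberField M4 M4.CM M5 Pool.Agent.M4.Mx
open scoped Kronecker

variable {a b : MZ} {F : Type} [Field F] [NumberField F] {p : ℕ} {P : ℤ[X]} {t : F} {s : ℤ} {l : ℕ}
  [Fact l.Prime] {ι : Fin 3 ≃ (F →+* CM.Om l)} {f : Fr ω (CM.Om l)} {h : Fin 3 → M2 (CM.Om l)}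

theorem Mor.le_em (z : Mor a b (CM.Om l)) (hS : Le z.S 1) (hS' : Le z.S' 1)
    {Y : Matrix ω ω (CM.Om l)} (hY : Le Y 1) : Le (z.em Y) 1 := by
  have h1 : Le (Y ⊗ₖ (1 : M2 (CM.Om l))) 1 := fun i j => by
    rw [kroneckerMap_apply, norm_mul]
    exact mul_le_one₀ (hY _ _) (norm_nonneg _) (Le.one _ _)
  rw [z.em_apply]
  exact (hS.mul_one h1).mul_one hS'

theorem lattice (z : Mor a b (CM.Om l)) (hS : Le z.S 1) (hS' : Le z.S' 1) (f : Fr ω (CM.Om l))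
    (h : Fin 3 → M2 (CM.Om l)) (y : Fin 3 → CM.Om l) (hP : Le f.P 1)
    (hQ : Le f.Q 1) (ht : ∀ i, (h i).trace ≠ 0) (h0 : ∀ i, y i ≠ 0)
    (hz : ∀ i, y i ^ 2 * (h i).trace ^ 2 = (h i).trace ^ 2 - 4 * (h i).det)
    (hE : ∀ i j, Le (Ej (h i) (CM.sg (CM.Om l) j * y i)) 1) (ρ ρ' d : Fin 3 → Fin 2 → CM.Om l)
    (g g' : Matrix ν ν (CM.Om l))
    (hg : Le (g * z.em (f.T fun i => ∑ j, ρ i j • Ej (h i) (CM.sg (CM.Om l) j * y i))) 1)
    (hdet : ‖g.det‖ * (∏ i, ‖ρ i 0 * ρ i 1‖) ^ 8 = 1)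
    (hg' : Le (g' * z.em (f.T fun i => ∑ j, ρ' i j • Ej (h i) (CM.sg (CM.Om l) j * y i))) 1)
    (hρ' : ∀ i j, ρ' i j ≠ 0) (hd : ∀ i j, ‖d i j * ρ i j‖ ≤ ‖ρ' i j‖) :
    ∃ W, Le W 1 ∧
      g' * z.em (f.T fun i => ∑ j, d i j • Ej (h i) (CM.sg (CM.Om l) j * y i)) = W * g := by
  set D := z.em (f.T fun i => ∑ j, ρ i j • Ej (h i) (CM.sg (CM.Om l) j * y i)) with hD
  set D' := z.em (f.T fun i => ∑ j, ρ' i j • Ej (h i) (CM.sg (CM.Om l) j * y i)) with hD'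
  set Y := z.em (f.T fun i => ∑ j, (d i j * ρ i j / ρ' i j) • Ej (h i) (CM.sg (CM.Om l) j * y i))
    with hY
  have hYle : Le Y 1 := by
    refine z.le_em hS hS'
      (Le.T hP hQ fun i => Le.sum _ zero_le_one fun j _ => ((hE i j).smul _).mono ?_)
    rw [_root_.mul_one, norm_div]
    exact div_le_one_of_le₀ (hd i j) (norm_nonneg _)
  have hDdet : ‖D.det‖ = (∏ i, ‖ρ i 0 * ρ i 1‖) ^ 8 := by
    have h1 := congrArg norm (det_T_sq f fun i => ∑ j, ρ i j • Ej (h i) (CM.sg (CM.Om l) j * y i))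
    rw [norm_pow, norm_pow, norm_prod] at h1
    simp only [fun i => comb_det (ht i) (h0 i) (hz i) (ρ i)] at h1
    rw [hD, z.det_em, norm_pow, h1]
  have hu : ‖(g * D).det‖ = 1 := by rw [det_mul, norm_mul, hDdet, hdet]
  have hu0 : (g * D).det ≠ 0 := fun h => by simp [h] at hu
  have hD0 : D.det ≠ 0 := fun h => hu0 (by rw [det_mul, h, mul_zero])
  refine ⟨g' * D' * Y * (g * D)⁻¹, (hg'.mul_one hYle).mul_one (hg.inv hu), ?_⟩
  have h2 : z.em (f.T fun i => ∑ j, d i j • Ej (h i) (CM.sg (CM.Om l) j * y i)) * D = D' * Y := by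
    rw [hD, hD', hY, ← map_mul, ← map_mul, f.T_mul, f.T_mul]
    refine congrArg (fun X => z.em (f.T X)) (funext fun i => ?_)
    rw [Pi.mul_apply, Pi.mul_apply, comb_mul (ht i) (h0 i) (hz i), comb_mul (ht i) (h0 i) (hz i)]
    refine Finset.sum_congr rfl fun j _ => ?_
    rw [mul_div_cancel₀ _ (hρ' i j)]
  have h3 : D * D⁻¹ = 1 := Matrix.mul_nonsing_inv _ hD0.isUnit
  generalize z.em (f.T fun i => ∑ j, d i j • Ej (h i) (CM.sg (CM.Om l) j * y i)) = E at h2 ⊢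
  calc g' * E = g' * (E * D) * D⁻¹ := by rw [mul_assoc, mul_assoc, h3, _root_.mul_one]
    _ = g' * D' * Y * ((g * D)⁻¹ * (g * D)) * D⁻¹ := by
        rw [h2, Matrix.nonsing_inv_mul _ hu0.isUnit, _root_.mul_one, mul_assoc g' D' Y]
    _ = g' * D' * Y * (g * D)⁻¹ * g * (D * D⁻¹) := by simp only [mul_assoc]
    _ = _ := by rw [h3, _root_.mul_one]

theorem cl_face (G : Glob p P t s) (L : Loc t s f h ι) (z : Mor a b (CM.Om l)) (hS : Le z.S 1)
    (hS' : Le z.S' 1) {k : 𝓞 F} (hu : Unt t k l) {x : Pl F} {g : MZ} (hg : Iso g x.M)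
    (hf : Fc t k z f h ι g x) {w : (F →+* CM.Om l) → CM.Om l} (hw : Sq t w) :
    Le (zM (CM.Om l) g * z.em (f.T fun i => ∑ j,
      CmLocal_rho x (ι i) (ι i k * (CM.sg (CM.Om l) j * w (ι i))) •
        Ej (h i) (CM.sg (CM.Om l) j * w (ι i)))) 1 ∧
    ‖(zM (CM.Om l) g).det‖ *
      (∏ i, ‖CmLocal_rho x (ι i) (ι i k * (CM.sg (CM.Om l) 0 * w (ι i))) *
        CmLocal_rho x (ι i) (ι i k * (CM.sg (CM.Om l) 1 * w (ι i)))‖) ^ 8 = 1 := by
  by_cases hl : l ∣ x.M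
  swap
  · have h1 : ∀ (j : F →+* CM.Om l) ϖ, CmLocal_rho x j ϖ = 1 := fun j ϖ => if_neg fun h => hl h.1
    simp only [h1, one_smul, Ej_sum, mul_one, norm_one, Finset.prod_const_one, one_pow]
    refine ⟨?_, by rw [Iso.norm_det hg, norm_nat_eq_one hl, one_pow]⟩
    have h2 : f.T (fun _ => 1) = 1 := f.T_one
    rw [h2, map_one, mul_one]
    exact le_int g
  obtain ⟨-, i₀, w₀, hw₀, hK, hι, hϖ⟩ := hf hl
  have hl0 : (l : ℝ) ≠ 0 := by exact_mod_cast (Fact.out : l.Prime).ne_zero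
  have ht0 : ι i₀ t ≠ 0 := (_root_.map_ne_zero _).2 G.ne_zero
  have hk0 : ι i₀ k ≠ 0 := fun h => by simpa [h] using (hu.2 (ι i₀)).2.2
  have hz0 : w (ι i₀) ≠ 0 := (G.sq_ne hw _).1
  obtain ⟨j₀, rfl⟩ : ∃ j₀, w₀ = CM.sg (CM.Om l) j₀ * w (ι i₀) := by
    have h1 : w₀ ^ 2 = w (ι i₀) ^ 2 := mul_right_cancel₀ ht0 (hw₀.trans (hw _).symm)
    rcases sq_eq_sq_iff_eq_or_eq_neg.1 h1 with h2 | h2
    · exact ⟨1, by simp [CM.sg, h2]⟩
    · exact ⟨0, by simp [CM.sg, h2]⟩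
  have hρ : ∀ i j, CmLocal_rho x (ι i) (ι i k * (CM.sg (CM.Om l) j * w (ι i))) =
      if i = i₀ ∧ j = j₀ then (l : CM.Om l)⁻¹ else 1 := by
    intro i j
    classical
    unfold CmLocal_rho
    refine if_congr ⟨?_, ?_⟩ rfl rfl
    · rintro ⟨-, h1, h2⟩
      obtain rfl : i = i₀ := ι.injective (h1.trans hι)
      refine ⟨rfl, ?_⟩
      have h3 := mul_right_cancel₀ hz0 (mul_left_cancel₀ hk0 (h2.trans hϖ))
      by_contra hne
      have h4 : CM.sg (CM.Om l) j + CM.sg (CM.Om l) j₀ = 0 := by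
        revert hne
        generalize j₀ = j'
        fin_cases j <;> fin_cases j' <;> simp [CM.sg]
      have h5 := CmLocal_sg_sq (CM.Om l) j₀
      have h6 : (2 : CM.Om l) = 0 := by linear_combination CM.sg (CM.Om l) j₀ * (h4 - h3) - 2 * h5
      exact two_ne_zero h6
    · rintro ⟨rfl, rfl⟩
      exact ⟨hl, hι.symm, hϖ.symm⟩
  simp only [hρ]
  constructor
  · have h1 : (fun i => ∑ j, (if i = i₀ ∧ j = j₀ then (l : CM.Om l)⁻¹ else 1) •
        Ej (h i) (CM.sg (CM.Om l) j * w (ι i))) = Function.update (1 : Fin 3 → M2 (CM.Om l)) i₀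
          (∑ j, (if j = j₀ then (l : CM.Om l)⁻¹ else 1) •
            Ej (h i₀) (CM.sg (CM.Om l) j * w (ι i₀))) := by
      funext i
      by_cases hi : i = i₀
      · subst hi
        simp
      · rw [Function.update_of_ne hi]
        simp only [hi, false_and, if_false, one_smul, Ej_sum, Pi.one_apply]
    rw [h1, ← f.u_apply, map_sum, map_sum, Finset.mul_sum]
    refine Le.sum _ zero_le_one fun j _ => ?_
    rw [map_smul, map_smul, mul_smul_comm]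
    split_ifs with hj
    · subst hj
      refine (Le.smul hK _).mono ?_
      rw [norm_inv, norm_l, inv_inv, mul_inv_cancel₀ hl0]
    · rw [one_smul, f.u_apply]
      refine (le_int g).mul_one (z.le_em hS hS' (Le.T L.P_le L.Q_le fun i => ?_))
      by_cases hi : i = i₀
      · subst hi
        rw [Function.update_self]
        exact CmLocal_E_le L hu i (by rw [mul_pow, CmLocal_sg_sq, one_mul, hw])
      · rw [Function.update_of_ne hi]
        exact Le.one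
  · rw [Iso.norm_det hg, norm_sqfree hg.1.1 hl, Finset.prod_eq_single i₀, ← mul_pow]
    · have h2 : ‖(if i₀ = i₀ ∧ 0 = j₀ then (l : CM.Om l)⁻¹ else 1) *
          if i₀ = i₀ ∧ 1 = j₀ then (l : CM.Om l)⁻¹ else 1‖ = l := by
        fin_cases j₀ <;> simp [norm_l]
      rw [h2, inv_mul_cancel₀ hl0, one_pow]
    · intro i _ hi
      simp [hi]
    · simp

theorem local_good {f : Fr ω (CM.Om l)} {h : Fin 3 → M2 (CM.Om l)} (G : Glob p P t s)
    (L : Loc t s f h ι) (z : Mor a b (CM.Om l)) (hS : Le z.S 1) (hS' : Le z.S' 1) {C N₀ : ℕ}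
    {k m : 𝓞 F} (hk : Kap C p t s k m) {x x' : Pl F} {c d : F} (hr : Rel m x x' N₀ c d) {γ : ℚ[X]}
    (hγ : Gm t s c (d * k) γ) {g g' : MZ} (hg : Iso g x.M) (hg' : Iso g' x'.M)
    (hf : Fc t k z f h ι g x) (hf' : Fc t k z f h ι g' x') :
    ∃ W, Le W 1 ∧ zM (CM.Om l) g' * aeval (z.em (f.T h)) (γ.map (Rat.castHom (CM.Om l))) =
      W * zM (CM.Om l) g := by
  rw [aeval_algHom_apply, L.aeval_eq G hγ]
  by_cases hl : ¬ l ∣ x.M ∧ ¬ l ∣ x'.M
  · have hu : ‖(zM (CM.Om l) g).det‖ = 1 := by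
      rw [Iso.norm_det hg, norm_nat_eq_one hl.1, one_pow]
    have hu0 : (zM (CM.Om l) g).det ≠ 0 := fun h => by simp [h] at hu
    have hi : ∀ c : F, IsIntegral ℤ ((x'.M : F) * c) → ∀ j : F →+* CM.Om l, ‖j c‖ ≤ 1 := by
      intro c hc j
      have h1 := le_of_integral (l := l) (hc.map j.toIntAlgHom)
      simpa [norm_nat_eq_one hl.2] using h1
    have hT : Le (f.T fun i => ι i c • (1 : M2 (CM.Om l)) + ι i (d * k) • Zm (h i)) 1 := by
      refine Le.T L.P_le L.Q_le fun i => ?_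
      rw [map_mul, mul_smul]
      refine Le.add ((Le.one.smul _).mono ?_) (((L.le_Zm G hk i).smul _).mono ?_)
      · rw [mul_one]
        exact hi c hr.int_a _
      · rw [mul_one]
        exact hi d hr.int_b _
    refine ⟨_, ((le_int g').mul_one (z.le_em hS hS' hT)).mul_one ((le_int g).inv hu), ?_⟩
    rw [mul_assoc _ _ (g.map _), Matrix.nonsing_inv_mul _ hu0.isUnit, mul_one]
  have hu : Unt t k l := by
    rcases not_and_or.1 hl with h1 | h1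
    · exact (hf (not_not.1 h1)).1
    · exact (hf' (not_not.1 h1)).1
  obtain ⟨w, hw⟩ := exists_sq (Ω := CM.Om l) G.ne_zero
  have hw' : ∀ i j, (CM.sg (CM.Om l) j * w (ι i)) ^ 2 * ι i t = ι i t - 4 := fun i j => by
    rw [mul_pow, CmLocal_sg_sq, one_mul, hw]
  have h0 : ∀ i, w (ι i) ≠ 0 := fun i => (G.sq_ne hw _).1
  obtain ⟨h1, h2⟩ := cl_face G L z hS hS' hu hg hf hw
  obtain ⟨h3, -⟩ := cl_face G L z hS hS' hu hg' hf' hw
  simp only [fun i => lin_eq (x := h i) (h0 i) (ι i c) (ι i (d * k))]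
  refine lattice z hS hS' f h (fun i => w (ι i)) L.P_le L.Q_le (CmLocal_tr_ne G L) h0
    (fun i => CmLocal_hz L (hw _)) (fun i j => CmLocal_E_le L hu i (hw' i j)) _ _ _ _ _ h1 h2 h3
    (fun i j h4 => ?_) fun i j => ?_
  · have := CmLocal_rho_wt x' (ι i) (ι i k * (CM.sg (CM.Om l) j * w (ι i)))
    simp [h4] at this
  · have h4 := CmLocal_rho_wt x (ι i) (ι i k * (CM.sg (CM.Om l) j * w (ι i)))
    have h5 := CmLocal_rho_wt x' (ι i) (ι i k * (CM.sg (CM.Om l) j * w (ι i)))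
    have h6 := hr.sz l (ι i) _ (CmLocal_pi_sq hk G.ne_zero (ι i) (hw' i j))
    rw [norm_mul, map_mul, mul_assoc (ι i d)]
    refine le_of_eq ?_
    generalize ‖CmLocal_rho x (ι i) (ι i k * (CM.sg (CM.Om l) j * w (ι i)))‖ = r at *
    generalize ‖CmLocal_rho x' (ι i) (ι i k * (CM.sg (CM.Om l) j * w (ι i)))‖ = r' at *
    generalize ‖ι i c + ι i d * (ι i k * (CM.sg (CM.Om l) j * w (ι i)))‖ = e at *
    linear_combination r' * h4 - e * r * h5 + r * r' * h6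

theorem cl_prod (z : Mor a b (CM.Om l)) {A : Matrix ω ω (CM.Om l)} (h : Le (z.em A) 1)
    {c : Fin 8 → CM.Om l} (ha : ∀ i, ‖c i‖ ≤ 1) (T : Finset (Fin 8)) :
    Le (z.em (aeval A (∏ j ∈ T, (X - C (c j))))) 1 := by
  induction T using Finset.induction_on with
  | empty =>
    rw [Finset.prod_empty, map_one, map_one]
    exact Le.one
  | insert j T hj ih =>
    rw [Finset.prod_insert hj, map_mul, map_sub, aeval_X, aeval_C, Algebra.algebraMap_eq_smul_one,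
      map_mul, map_sub, map_smul, map_one]
    exact (h.sub ((Le.one.smul _).mono (by rw [mul_one]; exact ha j))).mul_one ih

theorem bad_local (z : Mor a b (CM.Om l)) {A : Matrix ω ω (CM.Om l)} (h : Le (z.em A) 1)
    (h0 : Dq A ≠ 0) (q : Polynomial (CM.Om l)) {η : ℝ} (hη : 0 ≤ η)
    (hq : ∀ y, A.charpoly.eval y = 0 → ‖q.eval y‖ ≤ η) :
    Le (aeval (z.em A) q) (η / ‖Dq A‖) := by
  obtain ⟨c, hc⟩ := exists_roots8 A
  have ha : ∀ i, ‖c i‖ ≤ 1 := fun i => z.root_le h (cmDq_root hc i)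
  have hi : Function.Injective c := by
    have h1 := (Dq_ne_iff A).1 h0
    rw [hc, sp2_iff] at h1
    exact fun i j hij => h1 (congrArg (fun z => z ^ 2) hij)
  have hD : 0 < ‖Dq A‖ := norm_pos_iff.2 h0
  rw [aeval_algHom_apply, cmDq_interp A hc hi q, map_sum]
  refine Le.sum _ (div_nonneg hη hD.le) fun i _ => ?_
  rw [map_smul]
  refine ((cl_prod z h ha _).smul _).mono ?_
  rw [mul_one, norm_mul, norm_inv, norm_prod, div_eq_mul_inv]
  exact mul_le_mul (hq _ (cmDq_root hc i)) (inv_anti₀ hD (cmDq_le hc ha i))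
    (inv_nonneg.2 (Finset.prod_nonneg fun _ _ => norm_nonneg _)) hη

theorem local_bad (G : Glob p P t s) (z : Mor a b (CM.Om l)) {A : Matrix ω ω (CM.Om l)}
    (hA : Le (z.em A) 1) (hc : A.charpoly = P.map (Int.castRingHom (CM.Om l))) {C N₀ : ℕ}
    {k m : 𝓞 F} (hk : Kap C p t s k m) {x x' : Pl F} {c d : F} (hr : Rel m x x' N₀ c d) {γ : ℚ[X]}
    (hγ : Gm t s c (d * k) γ) (hl : l ∣ N₀) (h0 : Dq A ≠ 0)
    (hN : ‖(N₀ : CM.Om l)‖ ≤ ‖(32 : CM.Om l)‖ * ‖Dq A‖) :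
    Le (aeval (z.em A) (γ.map (Rat.castHom (CM.Om l))) - 1) ‖(32 : CM.Om l)‖ := by
  have h1 := bad_local z hA h0 (γ.map (Rat.castHom (CM.Om l)) - 1) (norm_nonneg (N₀ : CM.Om l))
    fun y hz => by
      rw [hc] at hz
      obtain ⟨w, hw, rfl⟩ := G.root_eq hz
      rw [eval_sub, eval_one, hγ _ w hw]
      refine norm_prod_sub_one _ (norm_nonneg _) (by exact_mod_cast norm_int_le (l := l) N₀)
        fun j _ => ?_
      rw [map_mul, mul_assoc]
      exact hr.one l hl j _ (CmLocal_pi_sq hk G.ne_zero j (hw j))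
  rw [map_sub, map_one] at h1
  exact h1.mono ((div_le_iff₀ (norm_pos_iff.2 h0)).2 hN)

theorem aeval_ro {K : IntermediateField ℚ ℂ} (r : Rep K) (σ : ℂ ≃ₐ[K] ℂ) (γ : ℚ[X]) :
    (aeval (rq r l σ) (γ.map (algebraMap ℚ ℚ_[l]))).map (algebraMap ℚ_[l] (CM.Om l)) =
      aeval (ro r l σ) (γ.map (Rat.castHom (CM.Om l))) := by
  have h1 := Polynomial.map_aeval_eq_aeval_map (φ := algebraMap ℚ_[l] (CM.Om l))
    (ψ := (algebraMap ℚ_[l] (CM.Om l)).mapMatrix (m := ν)) (by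
      ext c i j
      by_cases hij : i = j <;> simp [Matrix.algebraMap_matrix_apply, hij])
    (γ.map (algebraMap ℚ ℚ_[l])) (rq r l σ)
  rw [Polynomial.map_map, RingHom.ext_rat ((algebraMap ℚ_[l] (CM.Om l)).comp _)
    (Rat.castHom _)] at h1
  exact h1

theorem Iso.det_ne {g : MZ} {M : ℕ} (hg : Iso g M) (R : Type) [Field R] [CharZero R] :
    (zM R g).det ≠ 0 := by
  have h1 : g.det ≠ 0 := fun h => by
    have h2 := Iso.det_sq hg
    rw [h, zero_pow two_ne_zero] at h2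
    exact hg.1.1.ne_zero (by exact_mod_cast pow_eq_zero_iff (by norm_num) |>.1 h2.symm)
  have h3 : (zM R g).det = (g.det : R) := (Int.cast_det g).symm
  rw [h3]
  exact Int.cast_ne_zero.2 h1

theorem cl_desc {g g' : MZ} {M : ℕ} (hg : Iso g M) (B : Matrix ν ν ℚ_[l])
    {W : Matrix ν ν (CM.Om l)} (hW : Le W 1)
    (h : zM (CM.Om l) g' * B.map (algebraMap ℚ_[l] (CM.Om l)) = W * zM (CM.Om l) g) :
    ∃ W₀ : Matrix ν ν ℤ_[l], g'.map (Int.cast : ℤ → ℚ_[l]) * B =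
      W₀.map ((↑) : ℤ_[l] → ℚ_[l]) * g.map (Int.cast : ℤ → ℚ_[l]) ∧ W₀.map (CM.toOm l) = W := by
  have hm : ∀ g : MZ, (zM ℚ_[l] g).map (algebraMap ℚ_[l] (CM.Om l)) = zM (CM.Om l) g :=
    zM_map _
  have h0 := (hg.det_ne ℚ_[l]).isUnit
  have h1 := (hg.det_ne (CM.Om l)).isUnit
  obtain ⟨V, hV⟩ : ∃ V, zM ℚ_[l] g' * B = V * zM ℚ_[l] g :=
    ⟨zM ℚ_[l] g' * B * (zM ℚ_[l] g)⁻¹, by
      rw [mul_assoc _ _ (zM ℚ_[l] g), Matrix.nonsing_inv_mul _ h0, mul_one]⟩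
  have h2 : V.map (algebraMap ℚ_[l] (CM.Om l)) = W := by
    have h3 := congrArg (fun A => A.map (algebraMap ℚ_[l] (CM.Om l))) hV
    simp only [Matrix.map_mul, hm] at h3
    have h4 := congrArg (· * (zM (CM.Om l) g)⁻¹) (h3.symm.trans h)
    simpa only [mul_assoc, Matrix.mul_nonsing_inv _ h1, mul_one] using h4
  have h5 : ∀ i j, ‖V i j‖ ≤ 1 := fun i j => by
    have := hW i j
    rwa [← h2, Matrix.map_apply, PadicAlgCl.norm_extends] at this
  exact ⟨Matrix.of fun i j => ⟨V i j, h5 i j⟩, hV, h2⟩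

theorem desc_good (hl : l ≠ 2) {g g' : MZ} {M : ℕ} (hg : Iso g M) (B : Matrix ν ν ℚ_[l])
    {W : Matrix ν ν (CM.Om l)} (hW : Le W 1)
    (h : zM (CM.Om l) g' * B.map (algebraMap ℚ_[l] (CM.Om l)) = W * zM (CM.Om l) g) :
    ∃ W₀ : Matrix ν ν ℤ_[l], g'.map (Int.cast : ℤ → ℚ_[l]) * B =
      W₀.map ((↑) : ℤ_[l] → ℚ_[l]) * g.map (Int.cast : ℤ → ℚ_[l]) ∧
      ∀ a b, (32 : ℤ_[l]) ∣ (W₀ - 1) a b := by
  obtain ⟨W₀, h1, -⟩ := cl_desc hg B hW h
  refine ⟨W₀, h1, fun a b => IsUnit.dvd (PadicInt.isUnit_iff.2 ?_)⟩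
  rw [← norm_toOm, map_ofNat, show (32 : CM.Om l) = 2 ^ 5 by norm_num, norm_pow, norm_two hl,
    one_pow]

theorem desc_bad {g g' : MZ} {M M' : ℕ} (hg : Iso g M) (hg' : Iso g' M') (hl : ¬ l ∣ M)
    (B : Matrix ν ν ℚ_[l]) (h : Le (B.map (algebraMap ℚ_[l] (CM.Om l)) - 1) ‖(32 : CM.Om l)‖) :
    ∃ W₀ : Matrix ν ν ℤ_[l], g'.map (Int.cast : ℤ → ℚ_[l]) * B =
      W₀.map ((↑) : ℤ_[l] → ℚ_[l]) * g.map (Int.cast : ℤ → ℚ_[l]) ∧
      ∀ a b, (32 : ℤ_[l]) ∣ (W₀ - 1) a b := by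
  have hu : ‖(zM (CM.Om l) g).det‖ = 1 := by
    rw [Iso.norm_det hg, norm_nat_eq_one hl, one_pow]
  have h1 := (hg.det_ne (CM.Om l)).isUnit
  have h32 : ‖(32 : CM.Om l)‖ ≤ 1 := by exact_mod_cast norm_int_le (l := l) 32
  have hv : ∀ g : MZ, Lev g → Le (zM (CM.Om l) g - 1) ‖(32 : CM.Om l)‖ := by
    intro g hg i j
    obtain ⟨c, hc⟩ := hg i j
    have h2 : (zM (CM.Om l) g - 1) i j = (((g - 1) i j : ℤ) : CM.Om l) := by
      by_cases hij : i = j <;> simp [hij]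
    rw [h2, hc, Int.cast_mul, norm_mul, Int.cast_ofNat]
    exact mul_le_of_le_one_right (norm_nonneg _) (norm_int_le c)
  obtain ⟨W, hW, hW1⟩ : ∃ W, zM (CM.Om l) g' * B.map (algebraMap ℚ_[l] (CM.Om l)) =
      W * zM (CM.Om l) g ∧ Le (W - 1) ‖(32 : CM.Om l)‖ := by
    refine ⟨zM (CM.Om l) g' * B.map (algebraMap ℚ_[l] (CM.Om l)) * (zM (CM.Om l) g)⁻¹, ?_, ?_⟩
    · rw [mul_assoc _ _ (zM (CM.Om l) g), Matrix.nonsing_inv_mul _ h1, mul_one]
    · have h3 := (((Le.mul (le_int g') h zero_le_one (norm_nonneg _)).mono (one_mul _).le).add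
        (hv g' hg'.2.1)).sub (hv g hg.2.1)
      have h4 := (h3.mul ((le_int g).inv hu) (norm_nonneg _) zero_le_one).mono (mul_one _).le
      have h5 : zM (CM.Om l) g' * (B.map (algebraMap ℚ_[l] (CM.Om l)) - 1) +
          (zM (CM.Om l) g' - 1) - (zM (CM.Om l) g - 1) =
          zM (CM.Om l) g' * B.map (algebraMap ℚ_[l] (CM.Om l)) - zM (CM.Om l) g := by
        rw [mul_sub, mul_one]
        abel
      rwa [h5, sub_mul, Matrix.mul_nonsing_inv _ h1] at h4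
  have hW2 : Le W 1 := by
    have := (hW1.mono h32).add Le.one
    rwa [sub_add_cancel] at this
  obtain ⟨W₀, h6, h7⟩ := cl_desc hg B hW2 hW
  refine ⟨W₀, h6, fun a b => ?_⟩
  have h8 : CM.toOm l ((W₀ - 1) a b) = (W - 1) a b := by
    rw [← h7]
    by_cases hij : a = b <;> simp [hij]
  have h9 : (32 : CM.Om l) ≠ 0 := by norm_num
  obtain ⟨c, hc⟩ := exists_toOm (l := l) (y := CM.toOm l ((W₀ - 1) a b) / CM.toOm l 32)
    ⟨(((W₀ - 1) a b : ℤ_[l]) : ℚ_[l]) / ((32 : ℤ_[l]) : ℚ_[l]), map_div₀ _ _ _⟩ (by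
      rw [norm_div, h8, map_ofNat]
      exact div_le_one_of_le₀ (hW1 a b) (norm_nonneg _))
  refine ⟨c, toOm_inj ?_⟩
  rw [map_mul, hc, map_ofNat, mul_div_cancel₀ _ h9]

end M8
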