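import Pool.Agent.Lib.MP_33b3f9_ag.M8.W.BFrob
import Pool.Agent.Lib.MP_33b3f9_ag.M5.SSys

/-!
The cubic field and the system of frames.
-/

set_option autoImplicit false

noncomputable section

namespace M8

open Matrix Polynomial NumberField M4 M4.CM M5 Pool.Agent.M4.Mx Pool.Agent.Lib.MP_33b3f9_ag
open scoped Kronecker

variable {a b : MZ}

theorem kron_comm {n m R : Type} [Fintype n] [DecidableEq n] [Fintype m] [DecidableEq m]
    [CommRing R] (i : n) {G : Matrix (n × m) (n × m) R}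
    (h : ∀ j, Commute (single i j (1 : R) ⊗ₖ (1 : Matrix m m R)) G) :
    ∃ y, G = (1 : Matrix n n R) ⊗ₖ y := by
  refine ⟨of fun p q => G (i, p) (i, q), ?_⟩
  ext ⟨j, p⟩ ⟨k, q⟩
  have h1 := congrFun (congrFun (h j).eq (i, p)) (k, q)
  simp only [Matrix.mul_apply, Fintype.sum_prod_type, kroneckerMap_apply, single_apply, one_apply,
    true_and, ite_and, ite_mul, mul_ite, one_mul, mul_one, zero_mul, mul_zero, Finset.sum_ite_eq,
    Finset.sum_ite_eq', Finset.mem_univ, if_true] at h1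
  rw [h1, kroneckerMap_apply, one_apply, of_apply, ite_mul, one_mul, zero_mul]

namespace Mor

variable {R : Type} [CommRing R] (s : Mor a b R) (f : Fr ω R)

theorem cQ_cP : s.cQ f * s.cP f = 1 := by
  rw [cQ, cP, Matrix.mul_assoc, ← Matrix.mul_assoc s.S', s.inv', Matrix.one_mul,
    ← mul_kronecker_mul, f.qp, Matrix.one_mul, one_kronecker_one]

theorem cP_cQ : s.cP f * s.cQ f = 1 := by
  rw [cQ, cP, Matrix.mul_assoc, ← Matrix.mul_assoc _ _ s.S', ← mul_kronecker_mul, f.pq,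
    Matrix.one_mul, one_kronecker_one, Matrix.one_mul, s.inv]

theorem em_T (h : Fin 3 → M2 R) :
    s.em (f.T h) = s.cP f * (Pool.Agent.M4.tp h ⊗ₖ (1 : M2 R)) * s.cQ f := by
  rw [em_apply, cP, cQ, Fr.T, ← Matrix.one_mul (1 : M2 R), mul_kronecker_mul,
    ← Matrix.one_mul (1 : M2 R), mul_kronecker_mul]
  simp only [Matrix.mul_assoc, Matrix.one_mul]

theorem conj_T (h : Fin 3 → M2 R) :
    s.cQ f * s.em (f.T h) * s.cP f = Pool.Agent.M4.tp h ⊗ₖ (1 : M2 R) := by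
  rw [em_T, ← Matrix.mul_assoc, ← Matrix.mul_assoc, cQ_cP, Matrix.one_mul, Matrix.mul_assoc, cQ_cP,
    Matrix.mul_one]

theorem slot_of_comm {d : Matrix ν ν R} (h : ∀ x, Commute (s.em x) d) :
    ∃ y, s.cQ f * d * s.cP f = (1 : Matrix κ κ R) ⊗ₖ y := by
  obtain ⟨y, hy⟩ := kron_comm (.inl 0) (G := s.S' * d * s.S) fun j => by
    have h1 : ∀ u v : Matrix ν ν R, s.S' * u * s.S * (s.S' * v * s.S) = s.S' * (u * v) * s.S :=
      fun u v => by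
        calc _ = s.S' * u * (s.S * s.S') * v * s.S := by simp only [Matrix.mul_assoc]
          _ = _ := by rw [s.inv, Matrix.mul_one, Matrix.mul_assoc s.S']
    rw [← s.conj_em, Commute, SemiconjBy, h1, h1, (h _).eq]
  refine ⟨y, ?_⟩
  calc _ = f.Q ⊗ₖ (1 : M2 R) * (s.S' * d * s.S) * f.P ⊗ₖ (1 : M2 R) := by
        simp only [cP, cQ, Matrix.mul_assoc]
    _ = _ := by
        rw [hy, ← mul_kronecker_mul, ← mul_kronecker_mul, Matrix.mul_one, Matrix.mul_one,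
          Matrix.one_mul, f.qp]

variable {R' : Type} [CommRing R'] (φ : R →+* R')

theorem map_cQ : (s.cQ f).map φ = (s.map φ).cQ (f.map φ) := by
  ext i j
  simp [cQ, Mor.map, Fr.map, Matrix.mul_apply, one_apply, apply_ite φ]

theorem map_cP : (s.cP f).map φ = (s.map φ).cP (f.map φ) := by
  ext i j
  simp [cP, Mor.map, Fr.map, Matrix.mul_apply, one_apply, apply_ite φ]

end Mor

theorem Lw.Int.ten {Γ F : Type} [Group Γ] [Field F] {l : ℕ} [Fact l.Prime] {ρ : Γ →* GL ν ℤ_[l]}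
    {W : Lw a b ρ} {z : Mor a b ℤ_[l]} {u : Γ →* GL ω ℤ_[l]} (h : W.Int z u)
    {ι : Fin 3 → F →+* CM.Om l} {f : Fr ω (CM.Om l)} (T : M5.Ten u ι f) : Ten W ι f :=
  ⟨T.inj, by rw [h.s]; exact le_toOm _, by rw [h.s]; exact le_toOm _, T.P_le, T.Q_le,
    fun σ => by rw [h.w_eq]; exact T.ex σ, T.gal, fun θ σ => by rw [h.w_eq]; exact bspl_fix θ _⟩

variable {τ : Mat} {K : IntermediateField ℚ ℂ} {r : Rep K} {W : WS a b r} {l₀ : ℕ}
  [Fact l₀.Prime] {f₀ : Fr ω (CM.Om l₀)}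

theorem all_cb (H : Hyp τ W) (B : Base W l₀ f₀) : ∃ l₁ : ℕ, ∀ (l : ℕ) [Fact l.Prime], l₁ < l →
    ∃ z u f, (W l).Int z u ∧ Sf1 u 180 ∧ Cb u f := by
  obtain ⟨l₁, h1⟩ := H.sf 180
  refine ⟨l₁ + 2, fun l _ hl => ?_⟩
  obtain ⟨f, h2, h3⟩ := conn H B l
  obtain ⟨z, u, h4, h5⟩ := h1 l (by omega)
  rw [h4.g_eq] at h2
  simp only [h4.w_eq] at h3
  obtain ⟨f', h6⟩ := exists_cb (by omega) (h5.sz (by norm_num)) h2 h3
  exact ⟨z, u, f', h4, h5, h6⟩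

theorem exists_frob (H : Hyp τ W) (B : Base W l₀ f₀) (p₁ : ℕ) :
    ∃ (p : ℕ) (_ : Fact p.Prime) (e : ℂ ≃+* PadicAlgCl p) (σ : ℂ ≃ₐ[K] ℂ) (P : ℤ[X]),
      p₁ < p ∧ Frob τ r e σ ∧ Wei W p σ P ∧
        ∀ (l : ℕ) [Fact l.Prime], l ≠ p → Reg ((W l).w σ) := by
  obtain ⟨u, -, hu⟩ := dens H B ⊤ 1
  obtain ⟨p, hp, e, σ, j, P, h1, h2, h3, -, h4⟩ := frob_reg H (B.neat _) hu one_ne_zero p₁
  exact ⟨p, hp, e, σ, P, h1, h2, h3, h4⟩

theorem sf_loc {p : ℕ} [Fact p.Prime] {e : ℂ ≃+* PadicAlgCl p} {σ : ℂ ≃ₐ[K] ℂ} {P : ℤ[X]}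
    (h65 : 65 ≤ p) (hσ : Frob τ r e σ) (hW : Wei W p σ P) :
    ∃ c : ℚ[X], c.Monic ∧ c.natDegree = 3 ∧ ∀ (l : ℕ) [Fact l.Prime], l ≠ p → Reg ((W l).w σ) →
      ∀ (f : Fr ω (CM.Om l)) (h : Fin 3 → M2 (CM.Om l)), (W l).w σ = f.T h →
        (∀ i, h i ≠ 0) ∧ (Function.Injective fun i => tv (h i)) ∧ (∀ i (q : ℚ), tv (h i) ≠ q) ∧
          ∀ i, (c.map (Rat.castHom (CM.Om l))).eval (tv (h i)) = 0 := by
  obtain ⟨x, hx⟩ := pow_sums P hW.base.monic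
  obtain ⟨c, hc1, hc2, hc3⟩ := CM.exists_cubic ((x 1 : ℚ) ^ 2 / p) (x 2 / p) (x 3 / (p * x 1))
  have hp := (Fact.out : p.Prime)
  refine ⟨c, hc1, hc2, fun l _ hl hr f h e1 => ?_⟩
  have e8 : (p : CM.Om l) ≠ 0 := Nat.cast_ne_zero.2 hp.ne_zero
  have e2 : Sp2 (f.T h).charpoly := by
    have := hr 1 one_ne_zero
    rw [pow_one, e1] at this
    exact (Dq_ne_iff _).1 this
  have e3 := cube_det f h e8 (e1 ▸ hσ.mult_w (W l) hl) e2
  have e4 := fun i => Finset.prod_ne_zero_iff.1 (e3 ▸ e8) i (Finset.mem_univ i)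
  have e0 : (f.T h).charpoly = P.map (Int.castRingHom (CM.Om l)) := e1 ▸ hW.char l hl
  have e5 := hx _ _ e0
  have e6 := e5 1
  obtain ⟨v1, v2, v3⟩ := cube_vals f h e4
  rw [pow_one] at e6
  rw [e3] at v1 v2 v3
  rw [e5] at v2 v3
  rw [e6] at v1 v3
  have e7 : (x 1 : CM.Om l) ≠ 0 := by
    rw [← e6, trace_T]
    exact Finset.prod_ne_zero_iff.2 fun i _ => cube_trace _ _ e2 i
  refine ⟨fun i h0 => e4 i (by rw [h0, det_zero]), (cube_inj f h e4 e2).1,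
    tv_irr f h hp h65 hW.base.monic hW.base.weil e0 e3 (e1 ▸ hr), hc3 _ _ ?_ ?_ ?_⟩ <;> push_cast
  · exact eq_div_of_mul_eq e8 (by rw [mul_comm, v1])
  · exact eq_div_of_mul_eq e8 (by rw [mul_comm, v2])
  · exact eq_div_of_mul_eq (mul_ne_zero e8 e7) (by rw [mul_comm, v3])

theorem exists_F (H : Hyp τ W) (B : Base W l₀ f₀) :
    ∃ (F : Type) (_ : Field F) (_ : NumberField F), Module.finrank ℚ F = 3 ∧
      ∃ l₁ : ℕ, ∀ (l : ℕ) [Fact l.Prime], l₁ < l → ∃ z u, (W l).Int z u ∧ Sf1 u 180 ∧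
        ∃ (ι : Fin 3 → F →+* CM.Om l) (f : Fr ω (CM.Om l)), M5.Ten u ι f := by
  obtain ⟨p, hp, e, σ, P, h65, hσ, hW, hr⟩ := exists_frob H B 64
  obtain ⟨l₁, h1⟩ := all_cb H B
  obtain ⟨c, c1, c2, c3⟩ := sf_loc h65 hσ hW
  have hirr : Irreducible c := by
    obtain ⟨l, hl, hl'⟩ := Nat.exists_infinite_primes (l₁ + p + 1)
    have := Fact.mk hl'
    obtain ⟨z, u, f, hI, -, hf⟩ := h1 l (by omega)
    obtain ⟨h, -, e1⟩ := hf.ex σ
    obtain ⟨-, g1, g2, g3⟩ := c3 l (by omega) (hr l (by omega)) f h ((hI.w_eq σ).trans e1)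
    exact sf_irr c1 c2 g1 g2 g3
  have := Fact.mk hirr
  refine ⟨AdjoinRoot c, inferInstance, inferInstance, ?_, l₁ + p, fun l _ hl => ?_⟩
  · have := (AdjoinRoot.powerBasis c1.ne_zero).finrank
    rw [AdjoinRoot.powerBasis_dim, c2] at this
    exact (congrArg (fun i : Algebra ℚ (AdjoinRoot c) =>
      @Module.finrank ℚ (AdjoinRoot c) _ _ i.toModule) (Subsingleton.elim _ _)).trans this
  obtain ⟨z, u, f, hI, hs, hf⟩ := h1 l (by omega)
  obtain ⟨h, -, e1⟩ := hf.ex σ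
  obtain ⟨g0, g1, -, g3⟩ := c3 l (by omega) (hr l (by omega)) f h ((hI.w_eq σ).trans e1)
  refine ⟨z, u, hI, hs, fun i => AdjoinRoot.lift (Rat.castHom (CM.Om l)) (tv (h i))
    (by rw [eval₂_eq_eval_map]; exact g3 i), f, fun i k hik => g1 ?_, hf.P_le, hf.Q_le, hf.ex,
    fun θ => ?_⟩
  · simpa only [AdjoinRoot.lift_root] using congrArg (fun j => j (AdjoinRoot.root c)) hik
  · obtain ⟨π, hπ⟩ := hf.gal θ
    refine ⟨π, hπ, fun i x => ?_⟩
    have e2 : (f.T h).map θ = f.T h := by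
      rw [← e1]
      exact bspl_fix θ _
    refine RingHom.congr_fun (AdjoinRoot.ringHom_ext
      (f := (θ : CM.Om l →+* CM.Om l).comp (AdjoinRoot.lift _ _ _)) (RingHom.ext_rat _ _) ?_) x
    rw [RingHom.comp_apply, AdjoinRoot.lift_root, AdjoinRoot.lift_root]
    exact (gal_T hπ e2 g0 i).1

theorem ssys_ts {l : ℕ} [Fact l.Prime] (hl : 5 ≤ l) {z : Mor a b ℤ_[l]}
    {u : (ℂ ≃ₐ[K] ℂ) →* GL ω ℤ_[l]} (hu : ∀ σ, (r l σ : Matrix ν ν ℤ_[l]) = z.em (u σ))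
    (hs : Sf1 u 180) (fz : Fr ω ℤ_[l]) (h : ∀ σ, ∃ hz, (u σ : Matrix ω ω ℤ_[l]) = fz.T hz) :
    TS r l ((z.cQ fz).map PadicInt.toZMod) ((z.cP fz).map PadicInt.toZMod) := by
  let ρ : (ℂ ≃ₐ[K] ℂ) →* Matrix ω ω (ZMod l) :=
    ((PadicInt.toZMod (p := l)).mapMatrix.toMonoidHom.comp (Units.coeHom _)).comp u
  have ex : ∀ σ, ∃ g, ρ σ = (fz.map PadicInt.toZMod).T g := fun σ => by
    obtain ⟨hz, e⟩ := h σ
    exact ⟨_, by rw [← Fr.map_T, ← e]; rfl⟩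
  have hb : ∀ σ, rb r l σ = (z.map PadicInt.toZMod).em (ρ σ) := fun σ => by
    rw [rb, hu, z.map_em]
    rfl
  rw [z.map_cQ, z.map_cP]
  refine ⟨Mor.cQ_cP _ _, Mor.cP_cQ _ _, fun σ => ?_, fun i y hy => ?_, fun d hd => ?_⟩
  · obtain ⟨g, e⟩ := ex σ
    exact ⟨g, by rw [hb, e, Mor.conj_T]⟩
  · obtain ⟨σ, e⟩ := ts_big hl ρ (fz.map PadicInt.toZMod) ex hs i hy
    exact ⟨σ, by rw [hb, e, Mor.conj_T]⟩
  · refine Mor.slot_of_comm _ _ fun x => ?_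
    have hx := (hs ⊤ (by simp) (by simp)).ge (Submodule.mem_top (x := x))
    induction hx using Submodule.span_induction with
    | mem x hx =>
      obtain ⟨σ, -, rfl⟩ := hx
      have h1 := (hd σ).map (PadicInt.toZMod (p := l)).mapMatrix
      rw [RingHom.mapMatrix_apply, zM_map] at h1
      exact hb σ ▸ h1.symm
    | zero => rw [map_zero]; exact Commute.zero_left _
    | add x y _ _ hx hy => rw [map_add]; exact hx.add_left hy
    | smul c x _ hx => rw [map_smul]; exact hx.smul_left c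

theorem exists_sys (H : Hyp τ W) (B : Base W l₀ f₀) :
    ∃ (F : Type) (_ : Field F) (_ : NumberField F) (L : Type) (_ : Field L) (_ : NumberField L)
      (l₁ : ℕ), Module.finrank ℚ F = 3 ∧ 2 ≤ l₁ ∧ Nonempty (Sys W F L l₁) := by
  obtain ⟨F, iF, nF, hF, a1, b1⟩ := exists_F H B
  obtain ⟨L, iL, nL, a2, b2⟩ := exists_L F
  refine ⟨F, iF, nF, L, iL, nL, max (max a1 5) a2, hF, by omega, ?_⟩
  have key : ∀ (l : ℕ) [Fact l.Prime], ∃ (ι : Fin 3 → F →+* CM.Om l) (f : Fr ω (CM.Om l))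
      (A : Matrix (κ × Fin 2) ν (ZMod l)) (A' : Matrix ν (κ × Fin 2) (ZMod l)),
      max (max a1 5) a2 < l → Ten (W l) ι f ∧ (NT.Spl L l → TS r l A A' ∧
        ∃ (z : Mor a b ℤ_[l]) (fz : Fr ω ℤ_[l]), (W l).s = z.map (CM.toOm l) ∧
          f = fz.map (CM.toOm l) ∧ A = (z.cQ fz).map PadicInt.toZMod ∧
            ∀ σ, ∃ hz, (W l).w σ = (fz.T hz).map (CM.toOm l)) := by
    intro l hp
    by_cases hl : max (max a1 5) a2 < l
    swap
    · obtain ⟨e, -⟩ := exists_equiv (Ω := CM.Om l) hF (IsAlgClosed.lift (R := ℚ) (S := F)).toRingHom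
      obtain ⟨f, -⟩ := conn H B l
      exact ⟨e, f, 0, 0, fun h => (hl h).elim⟩
    simp only [max_lt_iff] at hl
    obtain ⟨⟨k1, k5⟩, k2⟩ := hl
    obtain ⟨z, u, hI, hs, ι, f, hT⟩ := b1 l k1
    by_cases hS : NT.Spl L l
    swap
    · exact ⟨ι, f, 0, 0, fun _ => ⟨hI.ten hT, fun h => (hS h).elim⟩⟩
    have hr := (b2 l k2 hS).2
    obtain ⟨fz, hz⟩ := split (ρ := u) (f := f) (by omega) (hs.sz (by norm_num))
      ⟨hT.P_le, hT.Q_le, hT.ex, fun θ => (hT.gal θ).imp fun π h => h.1⟩ fun θ i => by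
        obtain ⟨π, h1, h2⟩ := hT.gal θ
        have e : ι i = ι (π i) := RingHom.ext fun x => by
          rw [← h2, (mem_Qp_iff _).1 (hr _ x) θ]
        have h3 := h1 i
        rwa [← hT.inj e] at h3
    exact ⟨ι, _, _, _, fun _ => ⟨hI.ten (ssys_ten hT.inj (fun i => hr _) fz hz), fun _ =>
      ⟨ssys_ts k5.le hI.eq hs fz hz, z, fz, hI.s, rfl, rfl, fun σ => (hz σ).imp fun x e => by
        rw [hI.w_eq, ← e]
        rfl⟩⟩⟩
  choose ι f A A' h using key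
  classical
  refine ⟨⟨ι, f, fun l => if hl : l.Prime then haveI := Fact.mk hl; A l else 0,
    fun l => if hl : l.Prime then haveI := Fact.mk hl; A' l else 0,
    fun l _ hl => (h l hl).1, fun l hp hl hS => ?_⟩⟩
  have k2 := (le_max_right _ _).trans_lt hl
  simp only [dif_pos hp.out]
  exact ⟨(b2 l k2 hS).1, (b2 l k2 hS).2, (h l hl).2 hS⟩

end M8
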