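import Pool.Agent.Lib.MP_33b3f9_ag.M8.W.SGlob
import Pool.Agent.Lib.MP_33b3f9_ag.M8.W.CLocal
import Pool.Agent.Lib.MP_33b3f9_ag.M8.W.CFace
import Pool.Agent.Lib.MP_33b3f9_ag.M5.SMain

/-!
The class bound.
-/

set_option autoImplicit false

noncomputable section

namespace M8

open Matrix Polynomial NumberField M4 M4.CM M5 Pool.Agent.M4.Mx Pool.Agent.Lib.MP_33b3f9_ag
open Pool.Agent.M4.Det
open scoped Kronecker

variable {a b : MZ} {τ : Mat} {K : IntermediateField ℚ ℂ} {r : Rep K}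

theorem le_kron {l : ℕ} [Fact l.Prime] {m n : Type} {A : Matrix m n (CM.Om l)} (h : Le A 1) :
    Le (A ⊗ₖ (1 : M2 (CM.Om l))) 1 := fun i j => by
  rw [kroneckerMap_apply, norm_mul]
  exact mul_le_one₀ (h _ _) (norm_nonneg _) (Le.one _ _)

theorem Ten.tens {F : Type} [Field F] {l : ℕ} [Fact l.Prime] {W : Lw a b (r l)}
    {ι : Fin 3 → F →+* CM.Om l} {f : Fr ω (CM.Om l)} (h : Ten W ι f) : TENS r l :=
  ⟨W.s.cP f, W.s.cQ f, h.S_le.mul_one (le_kron h.P_le), (le_kron h.Q_le).mul_one h.S'_le,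
    W.s.cP_cQ f, W.s.cQ_cP f, fun σ => (h.ex σ).imp fun x e =>
      ⟨e.1, by rw [← W.s.em_T, ← e.2, W.eq]; rfl⟩⟩

variable {W : WS a b r} {F L : Type} [Field F] [NumberField F] [Field L] {l₁ : ℕ}

omit [NumberField F] in
/-- Integral models at the split primes. -/
theorem smain_split (S : Sys W F L l₁) {l : ℕ} [Fact l.Prime] (h1 : l₁ < l) (hs : NT.Spl L l)
    {t : F} {s : ℤ} {h : Fin 3 → M2 (CM.Om l)} {ι : Fin 3 ≃ (F →+* CM.Om l)}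
    (hL : Loc t s (S.f l) h ι) {σ : ℂ ≃ₐ[K] ℂ} (hA : (W l).w σ = (S.f l).T h)
    (hR : NT.Spl L l → ∀ i x y, h i x y ∈ NT.Qp l) :
    (∀ (j : F →+* CM.Om l) x, j x ∈ NT.Qp l) ∧ ∃ (z : Mor a b ℤ_[l]) (fz : Fr ω ℤ_[l])
      (hz : Fin 3 → M2 ℤ_[l]), (W l).s = z.map (CM.toOm l) ∧ S.f l = fz.map (CM.toOm l) ∧
      S.A l = (z.cQ fz).map PadicInt.toZMod ∧ (h = fun i => (hz i).map (CM.toOm l)) ∧
      (r l σ : Matrix ν ν ℤ_[l]) = z.em (fz.T hz) := by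
  obtain ⟨-, hq, -, z, fz, hs', hf, hB, -⟩ := S.spl l h1 hs
  choose hz hhz using fun i => exists_mat (hR hs i) (hL.h_le i)
  have e : h = fun i => (hz i).map (CM.toOm l) := funext fun i => (hhz i).symm
  refine ⟨hq, z, fz, hz, hs', hf, hB, e, Matrix.map_injective toOm_inj ?_⟩
  change rO (r l) σ = (z.em (fz.T hz)).map (CM.toOm l)
  rw [z.map_em, Fr.map_T, ← hs', ← hf, ← e, ← hA, (W l).eq]

theorem smain_place (hF : Module.finrank ℚ F = 3) (S : Sys W F L l₁) (h2 : 2 ≤ l₁)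
    {C l₃ n : ℕ} {C' : ℝ} (hC1 : 1 ≤ C) (h13 : l₁ ≤ l₃) (hC3 : C ≤ l₃)
    (hC : ∀ (p : ℕ) (t : F) (s Δ : ℤ), NT.Plc p t Δ →
      (p : ℚ) * Algebra.norm ℚ t = (s : ℚ) ^ 2 → ¬ (p : ℤ) ∣ s →
      (∀ (l : ℕ) [Fact l.Prime], l₁ < l → l ≠ p → ∀ ι : F →+* CM.Om l,
        ∃ x : F, ‖ι t‖ = ‖ι x‖ ^ 2) → ∃ k m, Kap C p t s k m)
    (hs : ∀ (l : ℕ) [Fact l.Prime], l₃ < l → Sepr F l)
    (hcl : ∀ (m : 𝓞 F) (μ : ℝ), Pos m μ → 1 ≤ μ →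
      ∃ (h : ℕ) (cl : Pl F → Fin h), (h : ℝ) ≤ C' * μ ^ 2 ∧ ∀ x x' : Pl F,
        x.Ok m (l₁.factorial ^ (n + 5)) → x'.Ok m (l₁.factorial ^ (n + 5)) → cl x = cl x' →
          ∃ c d : F, Rel m x x' (l₁.factorial ^ (n + 5)) c d)
    {p : ℕ} [Fact p.Prime] (hp : 64 ≤ p) (hp1 : l₁ < p)
    (hv : ∀ (ι : F →+* CM.Om p) (x : F), x ≠ 0 → ∃ n : ℤ, ‖ι x‖ = (p : ℝ) ^ n)
    {e : ℂ ≃+* PadicAlgCl p} {σ : ℂ ≃ₐ[K] ℂ} (hσ : Frob τ r e σ) {P : ℤ[X]} (hW : Wei W p σ P)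
    (hP : Sp2 (P.map (Int.castRingHom Qb)))
    (hn : ∀ (l : ℕ) [Fact l.Prime], l ≤ l₁ → (l : ℝ) ^ (-n : ℤ) ≤ ‖Dq ((W l).w σ)‖) :
    ∃ (t : F) (Δ : ℤ), NT.Plc p t Δ ∧
      (∀ l : ℕ, l.Prime → l₃ < l → l ≠ p → NT.Spl L l → jacobiSym Δ l = 1 →
        ∃ f w, w ≠ 0 ∧ ∀ σ : ℂ ≃ₐ[K] ℂ, NT.Dec e σ → Stab r σ l (slot (S.A l) f w)) ∧
      ∃ (h : ℕ) (cl : MZ → ℕ → Fin h), (h : ℝ) ≤ C' * (((C * p : ℕ) : ℝ) ^ (1 / 3 : ℝ)) ^ 2 ∧
        ∀ g M g' M', Good r L l₃ S.A e Δ g M → Good r L l₃ S.A e Δ g' M' →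
          cl g M = cl g' M' → SameRed e (th2 (act (zr g) τ)) (th2 (act (zr g') τ)) := by
  obtain ⟨t, s, G, loc⟩ := glob hF S h2 hσ hW hP
  choose hh ιι hL hA hR using loc
  obtain ⟨ι₀, hι₀⟩ := G.pole hp hv
  obtain ⟨Δ, hΔ⟩ := G.plc hι₀
  obtain ⟨k, m, hk⟩ := hC p t s Δ hΔ G.nrm (G.not_dvd hp) fun l _ h1 h3 j => by
    have := (hL l h1 h3).even ((ιι l h1 h3).symm j)
    rwa [Equiv.apply_symm_apply] at this
  refine ⟨t, Δ, hΔ, fun l hl h3 hlp hsp hj => ?_, ?_⟩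
  · have := Fact.mk hl
    have h1 : l₁ < l := h13.trans_lt h3
    have a1 := hL l h1 hlp
    have a2 := hA l h1 hlp
    obtain ⟨-, z, fz, hz, -, e1, e2, e3, e4⟩ := smain_split S h1 hsp a1 a2 (hR l h1 hlp)
    rw [e1, e3] at a1
    rw [e2]
    exact exists_slot hσ G a1 z e4 hΔ.disc hlp (by omega) hj
  have key : ∀ (g : MZ) (M : ℕ), ∃ x : Pl F, x.M = M ∧ (Good r L l₃ S.A e Δ g M →
      x.Ok m (l₁.factorial ^ (n + 5)) ∧ ∀ (l : ℕ) [Fact l.Prime] (h1 : l₁ < l) (h3 : l ≠ p),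
        Fc t k (W l).s (S.f l) (hh l h1 h3) (ιι l h1 h3) g x) := fun g M => by
    have hl : ∀ (l : ℕ) [Fact l.Prime], ∃ (j : F →+* CM.Om l) (ϖ : CM.Om l),
        Good r L l₃ S.A e Δ g M → l ∣ M → Face m j ϖ ∧ ∀ (h1 : l₁ < l) (h3 : l ≠ p), Unt t k l ∧
          ∃ (i : Fin 3) (w : CM.Om l), w ^ 2 * ιι l h1 h3 i t = ιι l h1 h3 i t - 4 ∧
            Kil (W l).s (S.f l) (hh l h1 h3) g i w ∧ j = ιι l h1 h3 i ∧ ϖ = ιι l h1 h3 i k * w := by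
      intro l hl
      by_cases hc : Good r L l₃ S.A e Δ g M ∧ l ∣ M
      swap
      · exact ⟨S.ι l 0, 0, fun c d => absurd ⟨c, d⟩ hc⟩
      obtain ⟨h3, hlp, hsp, hj, ⟨i, w, hw, hK⟩, hst⟩ := hc.1.2 l hl.out hc.2
      have h1 : l₁ < l := h13.trans_lt h3
      have a1 := hL l h1 hlp
      have a2 := hA l h1 hlp
      obtain ⟨hq, y, fz, hz, e0, e1, e2, e3, e4⟩ := smain_split S h1 hsp a1 a2 (hR l h1 hlp)
      obtain ⟨u1, u2⟩ := G.unit_of_jac hΔ.disc hlp hj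
      have hu : Unt t k l := ⟨by omega, fun j => ⟨(u2 j).1, (u2 j).2,
        hk.unit l (hC3.trans_lt h3) u1 j⟩⟩
      rw [e1, e3] at a1
      rw [e2] at hK
      obtain ⟨z, z1, z2, z3, z4⟩ := exists_face a1 y e4 hu hw hK (hst σ hσ.dec)
      rw [← e0, ← e1, ← e3] at z4
      refine ⟨ιι l h1 hlp i, ιι l h1 hlp i k * z, fun _ _ => ⟨⟨hq _, ?_, ?_, ?_, hu.1, hs l h3⟩,
        fun _ _ => ⟨hu, i, z, z3, z4, rfl, rfl⟩⟩⟩
      · obtain ⟨c, hc⟩ := hq (ιι l h1 hlp i) k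
        obtain ⟨d, hd⟩ := z1
        exact ⟨c * d, by rw [map_mul, hc, hd]⟩
      · have b1 := congrArg (ιι l h1 hlp i) hk.eq
        rw [map_mul, map_mul, map_pow, map_sub, map_ofNat] at b1
        have b2 : ιι l h1 hlp i t ≠ 0 := (_root_.map_ne_zero _).2 G.ne_zero
        refine mul_right_cancel₀ b2 ?_
        linear_combination (ιι l h1 hlp i k) ^ 2 * z3 + b1
      · rw [norm_mul, (hu.2 _).2.2, z2, mul_one]
    choose j ϖ hj using hl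
    refine ⟨⟨M, j, ϖ⟩, rfl, fun hg => ⟨⟨hg.1.1.1, ?_, fun l _ hl => (hj l hg hl).1⟩,
      fun l _ h1 h3 hl => (hj l hg hl).2 h1 h3⟩⟩
    refine Nat.Coprime.pow_right _ (Nat.coprime_of_dvd fun q hq h1 h3 => ?_)
    have := (hg.2 q hq h1).1
    have := hq.dvd_factorial.1 h3
    omega
  choose X hXM hX using key
  have hμ : (1 : ℝ) ≤ ((C * p : ℕ) : ℝ) ^ (1 / 3 : ℝ) :=
    Real.one_le_rpow (by exact_mod_cast Nat.mul_pos hC1 (by omega)) (by norm_num)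
  obtain ⟨h, cl, hh1, hh2⟩ := hcl m _ hk.pos hμ
  refine ⟨h, fun g M => cl (X g M), hh1, fun g M g' M' hg hg' hc => ?_⟩
  obtain ⟨o1, f1⟩ := hX g M hg
  obtain ⟨o2, f2⟩ := hX g' M' hg'
  obtain ⟨c, d, hr⟩ := hh2 _ _ o1 o2 hc
  obtain ⟨γ, hγ⟩ := G.exists_gamma c (d * k)
  have n1 : ¬ p ∣ M := fun hd => (hg.2 p Fact.out hd).2.1 rfl
  have n2 : ¬ p ∣ M' := fun hd => (hg'.2 p Fact.out hd).2.1 rfl
  have i1 : Iso g (X g M).M := by rw [hXM]; exact hg.1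
  have i2 : Iso g' (X g' M').M := by rw [hXM]; exact hg'.1
  have hcube := G.cube hι₀ hp hk hr (by rwa [hXM]) (by rwa [hXM]) hγ
  rw [hXM, hXM] at hcube
  have hsep : (P.map (Int.castRingHom ℚ)).Separable :=
    Sp2.separable (algebraMap ℚ Qb) (hW.base.monic.map _).ne_zero (by
      rwa [Polynomial.map_map, RingHom.ext_int (RingHom.comp _ _) (Int.castRingHom Qb)])
  refine hσ.few P hW.base hsep (S.ten p hp1).tens γ M M' g g' hcube hg.1 hg'.1 n1 n2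
    fun l hl hlp => ?_
  by_cases h1 : l₁ < l
  · obtain ⟨V, w1, w2⟩ := local_good G (hL l h1 hlp) (W l).s (S.ten l h1).S_le (S.ten l h1).S'_le
      hk hr hγ i1 i2 (f1 l h1 hlp) (f2 l h1 hlp)
    rw [← hA l h1 hlp, (W l).eq, rO_eq, ← aeval_ro] at w2
    exact desc_good (by omega) hg.1 _ w1 w2
  · have h3 : l ≤ l₁ := not_lt.1 h1
    have h4 := hn l h3
    have h5 : (0 : ℝ) < l := by exact_mod_cast hl.out.pos
    refine desc_bad hg.1 hg'.1 (fun hd => ?_) _ ?_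
    · have := (hg.2 l hl.out hd).1
      omega
    · rw [aeval_ro, ← rO_eq, ← (W l).eq]
      refine local_bad G (W l).s ((W l).le σ) (hW.char l hlp) hk hr hγ
        (dvd_pow (hl.out.dvd_factorial.2 h3) (by omega)) (fun h0 => ?_) (smain_norm h3 h4)
      rw [h0, norm_zero] at h4
      exact absurd h4 (not_le.2 (zpow_pos h5 _))

theorem cb [NumberField L] (H : Hyp τ W) (hF : Module.finrank ℚ F = 3) (S : Sys W F L l₁)
    (h2 : 2 ≤ l₁) {σ₀ : ℂ ≃ₐ[K] ℂ}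
    (h0 : ∀ (l : ℕ) [Fact l.Prime], l ≤ l₁ → Dq ((W l).w σ₀) ≠ 0) : CBst τ r F := by
  have := H.fin
  have : IsTotallyReal F := by
    obtain ⟨n, G, hG, hGp⟩ := places H.red H.opn h2 h0 0
    obtain ⟨p, hp, -⟩ := hG.exists_ge 0
    obtain ⟨-, _, e, σ, P, -, hσ, hW, hP, -⟩ := hGp p hp
    obtain ⟨t, s, G, -⟩ := glob hF S h2 hσ hW hP
    exact glob_real G
  obtain ⟨C, hC1, hC⟩ := omega hF l₁
  obtain ⟨lv, hlv⟩ := val_unram F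
  obtain ⟨ls, hls⟩ := sepr F
  obtain ⟨n, G, hG, hGp⟩ := places H.red H.opn h2 h0 (max 64 (max l₁ lv))
  obtain ⟨C', hC', hcl⟩ := classes hF (N₀ := l₁.factorial ^ (n + 5))
    (pow_ne_zero _ (Nat.factorial_ne_zero _))
  have key : ∀ p : ℕ, ∃ (t : F) (Δ : ℤ), p ∈ G → NT.Plc p t Δ ∧ ∀ [Fact p.Prime],
      ∃ e : ℂ ≃+* PadicAlgCl p, IsPlace K e ∧
      (∀ l : ℕ, l.Prime → max l₁ (max C ls) < l → l ≠ p → NT.Spl L l → jacobiSym Δ l = 1 →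
        ∃ f w, w ≠ 0 ∧ ∀ σ : ℂ ≃ₐ[K] ℂ, NT.Dec e σ → Stab r σ l (slot (S.A l) f w)) ∧
      ∃ (h : ℕ) (cl : MZ → ℕ → Fin h), (h : ℝ) ≤ C' * C * (p : ℝ) ^ (7 / 10 : ℝ) ∧
        ∀ g M g' M', Good r L (max l₁ (max C ls)) S.A e Δ g M →
          Good r L (max l₁ (max C ls)) S.A e Δ g' M' →
          cl g M = cl g' M' → SameRed e (th2 (act (zr g) τ)) (th2 (act (zr g') τ)) := fun p => by
    by_cases hp : p ∈ G
    swap
    · exact ⟨0, 0, fun a => absurd a hp⟩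
    obtain ⟨h1, _, e, σ, P, he, hσ, hW, hP, hn⟩ := hGp p hp
    simp only [max_lt_iff] at h1
    obtain ⟨t, Δ, a1, a2, h', cl, a3, a4⟩ := smain_place hF S h2 hC1 (le_max_left l₁ (max C ls))
      ((le_max_left _ _).trans (le_max_right _ _)) hC
      (fun l _ hl => hls l (((le_max_right _ _).trans (le_max_right _ _)).trans_lt hl)) hcl
      h1.1.le h1.2.1 (hlv p h1.2.2) hσ hW hP hn
    refine ⟨t, Δ, fun _ => ⟨a1, e, he, a2, h', cl, a3.trans ?_, a4⟩⟩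
    have b1 : (1 : ℝ) ≤ C := by exact_mod_cast hC1
    have b2 : (1 : ℝ) ≤ p := by exact_mod_cast (by omega : 1 ≤ p)
    rw [mul_assoc]
    refine mul_le_mul_of_nonneg_left ?_ hC'
    rw [← Real.rpow_natCast, ← Real.rpow_mul (by positivity), Nat.cast_mul,
      Real.mul_rpow (by positivity) (by positivity)]
    refine mul_le_mul ?_ (Real.rpow_le_rpow_of_exponent_le b2 (by norm_num)) (by positivity)
      (by positivity)
    exact (Real.rpow_le_rpow_of_exponent_le b1 (by norm_num)).trans_eq (Real.rpow_one _)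
  choose t Δ ht using key
  refine ⟨L, inferInstance, inferInstance, max l₁ (max C ls), S.A, S.A', G, t, Δ, C' * C,
    fun l _ hl hs => ?_, hG, fun p hp => (ht p hp).1, fun p _ hp => (ht p hp).2⟩
  simp only [max_lt_iff] at hl
  obtain ⟨a1, -, a2, -⟩ := S.spl l hl.1 hs
  exact ⟨a1, a2⟩

end M8
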