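import Pool.Agent.Lib.MP_33b3f9_ag.M8.W.CDefs
import Pool.Agent.Lib.MP_33b3f9_ag.M4.B2.WeilA
import Pool.Agent.Lib.MP_33b3f9_ag.M4.NTPlc
import Pool.Agent.Lib.MP_33b3f9_ag.M4.NTFrobC

/-!
Characteristic polynomials of Frobenius elements on the factor; the choice of the places.
-/

set_option autoImplicit false

noncomputable section

namespace M8

open Matrix Polynomial NumberField M4 M4.CM M5 Pool.Agent.M4.Mx Pool.Agent.M4.Det

variable {a b : MZ} {τ : Mat} {K : IntermediateField ℚ ℂ} {r : Rep K}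

section weil

variable {p : ℕ} {σ : ℂ ≃ₐ[K] ℂ} {P : ℤ[X]} {l : ℕ} [Fact l.Prime]

theorem Weil.li (h : Weil r p σ P) (hl : l ≠ p) : LinearIndependent ℤ_[l]
    fun (i : Fin P.natDegree) (q : ν × ν) => ((r l σ : Matrix ν ν ℤ_[l]) ^ (i : ℕ)) q.1 q.2 := by
  refine Fintype.linearIndependent_iff.2 fun g hg i => ?_
  have h1 := h.dvd l hl (∑ i : Fin P.natDegree, C (g i) * X ^ (i : ℕ)) (by
    ext x y : 1
    have h2 := congrFun hg (x, y)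
    simp only [Finset.sum_apply, Pi.smul_apply, Pi.zero_apply] at h2
    simp only [map_sum, map_mul, aeval_C, map_pow, aeval_X, ← Algebra.smul_def, Matrix.sum_apply,
      Matrix.smul_apply, Matrix.zero_apply]
    exact h2)
  have h3 := eq_zero_of_dvd_of_degree_lt h1 (by
    rw [h.monic.degree_map, degree_eq_natDegree h.monic.ne_zero]
    exact degree_sum_fin_lt g)
  have h4 := congrArg (fun c => c.coeff i) h3
  simpa [finsetSum_coeff, Fin.val_inj] using h4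

theorem Weil.zero_om (h : Weil r p σ P) (hl : l ≠ p) :
    aeval (ro r l σ) (P.map (Int.castRingHom (CM.Om l))) = 0 := by
  rw [← algebraMap_int_eq, aeval_map_algebraMap]
  have := aeval_algHom_apply (CM.toOm l).mapMatrix.toIntAlgHom (r l σ : Matrix ν ν ℤ_[l]) P
  rw [h.zero l hl, map_zero] at this
  exact this

theorem Weil.dvd_om (h : Weil r p σ P) (hl : l ≠ p) {c : (CM.Om l)[X]}
    (hc : aeval (ro r l σ) c = 0) : P.map (Int.castRingHom (CM.Om l)) ∣ c := by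
  have hm := h.monic.map (Int.castRingHom (CM.Om l))
  rw [← modByMonic_eq_zero_iff_dvd hm]
  by_contra h0
  have h1 : (c %ₘ P.map (Int.castRingHom (CM.Om l))).natDegree < P.natDegree := by
    rw [← h.monic.natDegree_map (Int.castRingHom (CM.Om l))]
    exact natDegree_lt_natDegree h0 (degree_modByMonic_lt c hm)
  have h2 := aeval_modByMonic_eq_self_of_root (p := c) (h.zero_om hl)
  rw [hc, aeval_eq_sum_range' h1, Finset.sum_range] at h2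
  have : FaithfulSMul ℤ_[l] (CM.Om l) := (faithfulSMul_iff_algebraMap_injective _ _).2 toOm_inj
  have h3 := Fintype.linearIndependent_iff.1
    ((linearIndependent_algebraMap_comp_iff (S := CM.Om l)).2 (h.li hl))
    (fun i => (c %ₘ P.map (Int.castRingHom (CM.Om l))).coeff i) (funext fun q => by
      have h4 := congrFun (congrFun h2 q.1) q.2
      simp only [Matrix.sum_apply, Matrix.smul_apply, Matrix.zero_apply, ro_eq,
        ← Matrix.map_pow] at h4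
      simp only [Finset.sum_apply, Pi.smul_apply, Pi.zero_apply]
      exact h4)
  refine h0 (Polynomial.ext fun i => ?_)
  by_cases hi : i < P.natDegree
  · exact h3 ⟨i, hi⟩
  · exact coeff_eq_zero_of_natDegree_lt (by omega)

theorem Weil.dvd_char (h : Weil r p σ P) (hl : l ≠ p) (W : Lw a b (r l)) :
    P.map (Int.castRingHom (CM.Om l)) ∣ (W.w σ).charpoly := by
  refine h.dvd_om hl ?_
  rw [← rO_eq, ← W.eq, aeval_algHom_apply, aeval_self_charpoly, map_zero]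

theorem Weil.wei (h : Weil r p σ P) (hd : P.natDegree = 8) (W : WS a b r) : Wei W p σ P :=
  ⟨h, hd, fun l _ hl => eq_of_monic_of_dvd_of_natDegree_le (h.monic.map _) (charpoly_monic _)
    (h.dvd_char hl (W l)) (by rw [h.monic.natDegree_map, hd, charpoly_natDegree_eq_dim]; rfl)⟩

end weil

variable {W : WS a b r}

theorem weil_of_Dq {p : ℕ} [Fact p.Prime] {e : ℂ ≃+* PadicAlgCl p} {σ : ℂ ≃ₐ[K] ℂ}
    (h : Frob τ r e σ) {l : ℕ} [Fact l.Prime] (hl : l ≠ p) (h0 : Dq ((W l).w σ) ≠ 0) :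
    ∃ P, Wei W p σ P ∧ Sp2 (P.map (Int.castRingHom Qb)) := by
  have h1 := (Dq_ne_iff _).1 h0
  obtain ⟨P, hP⟩ := h.weil
  have h2 := M4.B2.weilA_sep_eq (Sp2.separable (RingHom.id _) (charpoly_monic _).ne_zero
    (by rwa [Polynomial.map_id])) (hP.monic.map _) ((W l).s.em_inj (by
      rw [← aeval_algHom_apply, (W l).eq, map_zero]
      exact hP.zero_om hl)) (hP.dvd_char hl (W l))
  refine ⟨P, hP.wei ?_ W, Sp2.transfer P (CM.Om l) Qb (h2 ▸ h1)⟩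
  rw [← hP.monic.natDegree_map (Int.castRingHom (CM.Om l)), ← h2, charpoly_natDegree_eq_dim]
  rfl

/-- Equality modulo `N` as a congruence. -/
def eqCon (r : Rep K) (N : ℕ) : Con (ℂ ≃ₐ[K] ℂ) where
  r := Eqm r N
  iseqv := ⟨fun _ _ _ _ _ => by simp, fun h l _ i j => dvd_sub_comm.1 (h l i j),
    fun h h' l _ i j => by simpa using dvd_add (h l i j) (h' l i j)⟩
  mul' := fun {a b c d} h h' l _ i j => by
    simp only [map_mul, Units.val_mul, Matrix.mul_apply, ← Finset.sum_sub_distrib]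
    refine Finset.dvd_sum fun k _ => ?_
    have := dvd_add ((h l i k).mul_right ((r l c : Matrix ν ν ℤ_[l]) k j))
      ((h' l k j).mul_left ((r l b : Matrix ν ν ℤ_[l]) i k))
    rwa [sub_mul, mul_sub, sub_add_sub_cancel] at this

theorem Eqm.mono {N M : ℕ} {σ σ' : ℂ ≃ₐ[K] ℂ} (h : Eqm r M σ σ') (hN : N ∣ M) : Eqm r N σ σ' :=
  fun l _ a b => (Nat.cast_dvd_cast hN).trans (h l a b)

/-- Continuous functions of the factor respect congruences. -/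
theorem near_eqm {l : ℕ} [Fact l.Prime] (W : Lw a b (r l)) {F : Matrix ω ω (CM.Om l) → CM.Om l}
    (hF : Continuous F) (σ₀ : ℂ ≃ₐ[K] ℂ) {ε : ℝ} (hε : 0 < ε) :
    ∃ k : ℕ, ∀ σ, Eqm r (l ^ k) σ₀ σ → ‖F (W.w σ) - F (W.w σ₀)‖ < ε := by
  obtain ⟨k, hk⟩ := W.near hF σ₀ hε
  exact ⟨k, fun σ h => hk σ fun i j => by simpa only [Nat.cast_pow] using h l i j⟩

theorem near_Dq {l : ℕ} [Fact l.Prime] (W : Lw a b (r l)) {σ₀ : ℂ ≃ₐ[K] ℂ} (h0 : Dq (W.w σ₀) ≠ 0) :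
    ∃ k : ℕ, ∀ σ j, Eqm r (l ^ k) σ₀ (σ ^ j) →
      Dq (W.w σ ^ j) ≠ 0 ∧ ‖Dq (W.w σ₀)‖ ≤ ‖Dq (W.w σ)‖ := by
  obtain ⟨k, hk⟩ := near_eqm W cont_Dq σ₀ (norm_pos_iff.2 h0)
  refine ⟨k, fun σ j h => ?_⟩
  have h1 := hk _ h
  rw [map_pow] at h1
  have h2 := IsUltrametricDist.norm_add_eq_max_of_norm_ne_norm h1.ne
  rw [sub_add_cancel, max_eq_right h1.le] at h2
  exact ⟨norm_ne_zero_iff.1 (h2.trans_ne (norm_ne_zero_iff.2 h0)), h2.ge.trans (W.Dq_pow σ j)⟩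

theorem frob_gen [FiniteDimensional ℚ K] (hred : REDst τ r) (ho : Opn r) (σ₀ : ℂ ≃ₐ[K] ℂ) {N : ℕ}
    (hN : N ≠ 0) (p₁ : ℕ) :
    NT.Dvg {p | p₁ < p ∧ ∃ (_ : Fact p.Prime) (e : ℂ ≃+* PadicAlgCl p) (σ : ℂ ≃ₐ[K] ℂ) (j : ℕ),
      IsPlace K e ∧ Frob τ r e σ ∧ Eqm r N σ₀ (σ ^ j)} := by
  obtain ⟨p₀, hp₀⟩ := hred
  obtain ⟨K₁, hK₁, h1⟩ := ho N hN
  refine ((NT.frobC K K₁ (eqCon r N).mk' (fun σ hσ => (Con.eq _).2 (h1 σ hσ)) σ₀).ge
    (p₀ + p₁ + N + 1)).mono ?_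
  rintro p ⟨⟨_, e, he, -, σ', h2, h3⟩, hp⟩
  have h4 : IsPlace K e := fun x hx => (he x hx).imp fun _ => Eq.symm
  obtain ⟨σ, hσ⟩ := hp₀ p (by omega) e h4
  obtain ⟨j, hj⟩ := hσ.unram σ' h2 N (Nat.not_dvd_of_pos_of_lt (Nat.pos_of_ne_zero hN) (by omega))
  obtain ⟨R, hR⟩ := CB.exists_cong r (σ ^ j) hN
  refine ⟨by omega, ‹_›, e, σ, j, h4, hσ, (eqCon r N).trans ((Con.eq _).1 h3.symm)
    fun l _ a b => ?_⟩
  simpa using dvd_sub (hj R hR l a b) (hR l a b)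

theorem places [FiniteDimensional ℚ K] (hred : REDst τ r) (ho : Opn r) {l₁ : ℕ} (h2 : 2 ≤ l₁)
    {σ₀ : ℂ ≃ₐ[K] ℂ} (h0 : ∀ (l : ℕ) [Fact l.Prime], l ≤ l₁ → Dq ((W l).w σ₀) ≠ 0) (p₁ : ℕ) :
    ∃ (n : ℕ) (G : Set ℕ), NT.Dvg G ∧ ∀ p ∈ G, p₁ < p ∧ ∃ (_ : Fact p.Prime)
      (e : ℂ ≃+* PadicAlgCl p) (σ : ℂ ≃ₐ[K] ℂ) (P : ℤ[X]), IsPlace K e ∧ Frob τ r e σ ∧
        Wei W p σ P ∧ Sp2 (P.map (Int.castRingHom Qb)) ∧
        ∀ (l : ℕ) [Fact l.Prime], l ≤ l₁ → (l : ℝ) ^ (-n : ℤ) ≤ ‖Dq ((W l).w σ)‖ := by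
  have h1 : ∀ (l : ℕ) [Fact l.Prime], 0 < (l : ℝ)⁻¹ ∧ (l : ℝ)⁻¹ < 1 := fun l hl =>
    ⟨inv_pos.2 (Nat.cast_pos.2 hl.out.pos), inv_lt_one_of_one_lt₀ (Nat.one_lt_cast.2 hl.out.one_lt)⟩
  obtain ⟨n, hn⟩ : ∃ n : ℕ, ∀ l ∈ Finset.range (l₁ + 1), ∀ [Fact l.Prime],
      (l : ℝ)⁻¹ ^ n ≤ ‖Dq ((W l).w σ₀)‖ ∧ ∀ σ j, Eqm r (l ^ n) σ₀ (σ ^ j) →
        ‖Dq ((W l).w σ₀)‖ ≤ ‖Dq ((W l).w σ)‖ := by
    refine ((Filter.eventually_all_finset (l := Filter.atTop) _).2 fun l hl => ?_).exists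
    by_cases hp : l.Prime
    · have := Fact.mk hp
      have h7 := h0 l (by have := Finset.mem_range.1 hl; omega)
      obtain ⟨k, hk⟩ := near_Dq (W l) h7
      exact (((tendsto_pow_atTop_nhds_zero_of_lt_one (h1 l).1.le (h1 l).2).eventually
        (ge_mem_nhds (norm_pos_iff.2 h7))).and (Filter.eventually_ge_atTop k)).mono
          fun n hn _ => ⟨hn.1, fun σ j h => (hk σ j (h.mono (pow_dvd_pow _ hn.2))).2⟩
    · exact .of_forall fun n h => absurd h.out hp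
  refine ⟨n, _, frob_gen hred ho σ₀ (pow_ne_zero n l₁.factorial_ne_zero) (p₁ + l₁), ?_⟩
  rintro p ⟨hp, _, e, σ, j, h7, h8, h9⟩
  have h10 : ∀ (l : ℕ) [Fact l.Prime], l ≤ l₁ → (l : ℝ)⁻¹ ^ n ≤ ‖Dq ((W l).w σ)‖ := fun l hl h => by
    have h11 := hn l (Finset.mem_range.2 (by omega))
    exact h11.1.trans (h11.2 σ j (h9.mono (pow_dvd_pow_of_dvd (Nat.dvd_factorial hl.out.pos h) n)))
  have := Fact.mk Nat.prime_two
  obtain ⟨P, h11, h12⟩ := weil_of_Dq (W := W) h8 (l := 2) (by omega)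
    (norm_pos_iff.1 ((pow_pos (h1 2).1 n).trans_le (h10 2 h2)))
  exact ⟨by omega, ‹_›, e, σ, P, h7, h8, h11, h12, fun l _ h => by
    rw [_root_.zpow_neg, zpow_natCast, ← inv_pow]; exact h10 l h⟩

end M8
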